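import Pool.Agent.H778R3.Lin.Count

/-!
Arithmetic versions of all the finite counting functions, and their meaning.
-/

namespace Pool.Agent.H778R3.Lin

open Finset

/-- digit number `i` of `x` in base `b` -/
def dig (b x i : ℕ) : ℕ := x / b ^ i % b

/-- code of the vector `∑_{i ∈ I} w_i` where `W` codes the tuple `w` and `I` a subset of `[m]` -/
def xs (n m W I : ℕ) : ℕ :=
  ∑ j ∈ range n, ((∑ i ∈ range m, dig 2 I i * dig 2 (dig (2 ^ n) W i) j) % 2) * 2 ^ j

/-- code of the image of the subset coded by `I` under the permutation coded by `s` -/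
def prm (m s I : ℕ) : ℕ := ∑ i ∈ range m, dig 2 I i * 2 ^ (dig m s i)

/-- arithmetic form of: the tuple coded by `W` induces, with respect to the set coded by `a`,
a model isomorphic to the model coded by `c` -/
def isoP (n c a W : ℕ) : Prop :=
  ∃ s < (c.unpair.1 + 1) ^ (c.unpair.1 + 1),
    (∀ i < c.unpair.1 + 1, ∀ j < i, dig (c.unpair.1 + 1) s i ≠ dig (c.unpair.1 + 1) s j) ∧
    (∀ I < 2 ^ (c.unpair.1 + 1), I ≠ 0 →
      dig 2 a (xs n (c.unpair.1 + 1) W I) =
        dig 2 c.unpair.2 (prm (c.unpair.1 + 1) s I))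

instance (n c a W : ℕ) : Decidable (isoP n c a W) := by
  unfold isoP; infer_instance

/-- number of tuples -/
def cnt (n M c a : ℕ) : ℕ :=
  ∑ W ∈ range ((2 ^ n) ^ M), if isoP n c a W then 1 else 0

/-! ### Meaning of the digits -/

theorem dig_fun {k b : ℕ} (f : Fin k → Fin b) (i : Fin k) :
    dig b (finFunctionFinEquiv f : ℕ) i = f i := by
  have h := finFunctionFinEquiv.symm_apply_apply f
  have h2 := congrFun h i
  exact congrArg Fin.val h2

theorem dig_zero_of_lt {b x k i : ℕ} (hb : 0 < b) (hx : x < b ^ k) (hi : k ≤ i) :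
    dig b x i = 0 := by
  unfold dig
  rw [Nat.div_eq_of_lt (hx.trans_le (Nat.pow_le_pow_right hb hi)), Nat.zero_mod]

/-- code of a vector -/
def vecE (n : ℕ) : (Fin n → ZMod 2) ≃ Fin (2 ^ n) :=
  finFunctionFinEquiv (m := 2) (n := n)

theorem dig_vec {n : ℕ} (v : Fin n → ZMod 2) (j : Fin n) :
    dig 2 (vecE n v : ℕ) j = (v j).val :=
  dig_fun (b := 2) v j

/-- the set of vectors coded by a number -/
def setOf (n a : ℕ) : Set (Fin n → ZMod 2) := {v | dig 2 a (vecE n v : ℕ) = 1}

theorem setOf_surj {n : ℕ} (A : Set (Fin n → ZMod 2)) : ∃ a ≤ 2 ^ 2 ^ n, setOf n a = A := by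
  classical
  let f : Fin (2 ^ n) → Fin 2 := fun k => if (vecE n).symm k ∈ A then 1 else 0
  refine ⟨(finFunctionFinEquiv f : ℕ), (finFunctionFinEquiv f).2.le, ?_⟩
  ext v
  change dig 2 _ _ = 1 ↔ _
  rw [dig_fun f (vecE n v)]
  simp only [f, Equiv.symm_apply_apply]
  split_ifs with h <;> simp [h]

/-- mask of a finite set -/
def mask {m : ℕ} (s : Finset (Fin m)) : ℕ := ∑ i ∈ s, 2 ^ (i : ℕ)

theorem mask_eq {m : ℕ} (s : Finset (Fin m)) :
    mask s = (finFunctionFinEquiv (fun i : Fin m => if i ∈ s then (1 : Fin 2) else 0) : ℕ) := by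
  rw [finFunctionFinEquiv_apply]
  unfold mask
  rw [← Finset.sum_subset (Finset.subset_univ s)]
  · refine Finset.sum_congr rfl fun i hi => ?_
    simp [hi]
  · intro i _ hi
    simp [hi]

theorem mask_lt {m : ℕ} (s : Finset (Fin m)) : mask s < 2 ^ m := by
  rw [mask_eq]; exact Fin.is_lt _

theorem dig_mask {m : ℕ} (s : Finset (Fin m)) (i : Fin m) :
    dig 2 (mask s) i = if i ∈ s then 1 else 0 := by
  rw [mask_eq, dig_fun]
  split_ifs <;> rfl

theorem mask_surj {m I : ℕ} (h : I < 2 ^ m) : ∃ s : Finset (Fin m), mask s = I := by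
  classical
  let f : Fin m → Fin 2 := finFunctionFinEquiv.symm ⟨I, h⟩
  have hf : (finFunctionFinEquiv f : ℕ) = I := by simp [f]
  refine ⟨univ.filter (fun i => f i = 1), ?_⟩
  rw [mask_eq]
  have : (fun i : Fin m => if i ∈ univ.filter (fun i => f i = 1) then (1 : Fin 2) else 0) = f := by
    funext i
    simp only [mem_filter, mem_univ, true_and]
    generalize f i = z
    revert z
    decide
  rw [this, hf]

theorem mask_eq_zero {m : ℕ} (s : Finset (Fin m)) : mask s = 0 ↔ s = ∅ := by
  unfold mask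
  rw [Finset.sum_eq_zero_iff]
  constructor
  · intro h
    rw [Finset.eq_empty_iff_forall_notMem]
    intro i hi
    exact absurd (h i hi) (by positivity)
  · rintro rfl
    simp

/-- code of a tuple of vectors -/
def tupE (n M : ℕ) : (Fin M → Fin n → ZMod 2) ≃ Fin ((2 ^ n) ^ M) :=
  (Equiv.arrowCongr (Equiv.refl (Fin M)) (vecE n)).trans finFunctionFinEquiv

theorem dig_tup {n M : ℕ} (w : Fin M → Fin n → ZMod 2) (i : Fin M) :
    dig (2 ^ n) (tupE n M w : ℕ) i = (vecE n (w i) : ℕ) := by
  unfold tupE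
  rw [Equiv.trans_apply, dig_fun]
  rfl

/-- restriction (or extension by zero) of a tuple -/
def res {n M : ℕ} (m : ℕ) (w : Fin M → Fin n → ZMod 2) : Fin m → Fin n → ZMod 2 :=
  fun i => if h : (i : ℕ) < M then w ⟨i, h⟩ else 0

theorem dig_tup_res {n M m : ℕ} (w : Fin M → Fin n → ZMod 2) (i : Fin m) (j : Fin n) :
    dig 2 (dig (2 ^ n) (tupE n M w : ℕ) i) j = (res m w i j).val := by
  unfold res
  split_ifs with h
  · have := dig_tup w ⟨i, h⟩
    simp only at this
    rw [this, dig_vec]
  · have h1 : dig (2 ^ n) (tupE n M w : ℕ) i = 0 :=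
      dig_zero_of_lt (by positivity) (Fin.is_lt _) (not_lt.mp h)
    rw [h1]
    simp [dig]

theorem val_sum_mod {ι : Type*} (s : Finset ι) (f : ι → ZMod 2) :
    (∑ i ∈ s, (f i).val) % 2 = (∑ i ∈ s, f i).val := by
  have h : ((∑ i ∈ s, (f i).val : ℕ) : ZMod 2) = ∑ i ∈ s, f i := by
    push_cast
    refine Finset.sum_congr rfl fun i _ => ?_
    exact ZMod.natCast_zmod_val _
  rw [← h, ZMod.val_natCast]

theorem xs_eq {n M m : ℕ} (w : Fin M → Fin n → ZMod 2) (s : Finset (Fin m)) :
    xs n m (tupE n M w : ℕ) (mask s) = (vecE n (∑ i ∈ s, res m w i) : ℕ) := by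
  unfold xs
  have hv : ((vecE n (∑ i ∈ s, res m w i) : ℕ)) =
      ∑ j : Fin n, ((∑ i ∈ s, res m w i) j).val * 2 ^ (j : ℕ) :=
    finFunctionFinEquiv_apply (m := 2) (∑ i ∈ s, res m w i : Fin n → ZMod 2)
  rw [hv, Finset.sum_range]
  refine Finset.sum_congr rfl fun j _ => ?_
  congr 1
  rw [Finset.sum_range]
  have h1 : ∑ i : Fin m, dig 2 (mask s) i * dig 2 (dig (2 ^ n) (tupE n M w : ℕ) i) j =
      ∑ i ∈ s, (res m w i j).val := by
    rw [← Finset.sum_subset (Finset.subset_univ s)]
    · refine Finset.sum_congr rfl fun i hi => ?_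
      rw [dig_mask, if_pos hi, one_mul, dig_tup_res]
    · intro i _ hi
      rw [dig_mask, if_neg hi, zero_mul]
  rw [h1, val_sum_mod, Finset.sum_apply]

theorem prm_eq {m : ℕ} (σ : Fin m ≃ Fin m) (s : Finset (Fin m)) :
    prm m (finFunctionFinEquiv (fun i => σ i) : ℕ) (mask s) =
      ∑ i ∈ s.map σ.toEmbedding, 2 ^ (i : ℕ) := by
  unfold prm
  rw [Finset.sum_range, Finset.sum_map, ← Finset.sum_subset (Finset.subset_univ s)]
  · refine Finset.sum_congr rfl fun i hi => ?_
    rw [dig_mask, if_pos hi, one_mul, dig_fun]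
    rfl
  · intro i _ hi
    rw [dig_mask, if_neg hi, zero_mul]

theorem testBit_iff_dig (b k : ℕ) : b.testBit k = true ↔ dig 2 b k = 1 := by
  unfold dig
  rw [Nat.testBit_eq_decide_div_mod_eq]
  simp

theorem dig_two_lt (b k : ℕ) : dig 2 b k < 2 := Nat.mod_lt _ (by norm_num)

theorem dig_eq_iff (a k b l : ℕ) : dig 2 a k = dig 2 b l ↔ (dig 2 a k = 1 ↔ dig 2 b l = 1) := by
  have h1 := dig_two_lt a k
  have h2 := dig_two_lt b l
  constructor
  · intro h; rw [h]
  · intro h
    omega

theorem isoP_iff {n M : ℕ} (c a : ℕ) (w : Fin M → Fin n → ZMod 2) :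
    isoP n c a (tupE n M w : ℕ) ↔
      (codeModel c).2.Iso (tupModel (setOf n a) (res ((codeModel c).1 + 1) w)) := by
  have key : isoP n c a (tupE n M w : ℕ) ↔
      ∃ σ : Fin (c.unpair.1 + 1) ≃ Fin (c.unpair.1 + 1), ∀ s : Finset (Fin (c.unpair.1 + 1)),
        s ∈ (tupModel (setOf n a) (res (c.unpair.1 + 1) w)).edges ↔
          s.map σ.toEmbedding ∈ (codeModel c).2.edges := by
    set m := c.unpair.1 + 1 with hm
    have hstep : ∀ (σ : Fin m ≃ Fin m) (s : Finset (Fin m)), s ≠ ∅ →
        ((dig 2 a (xs n m (tupE n M w : ℕ) (mask s)) =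
          dig 2 c.unpair.2 (prm m (finFunctionFinEquiv (fun i => σ i) : ℕ) (mask s))) ↔
        (s ∈ (tupModel (setOf n a) (res m w)).edges ↔
          s.map σ.toEmbedding ∈ (codeModel c).2.edges)) := by
      intro σ s hs
      rw [xs_eq, prm_eq, dig_eq_iff]
      have h1 : s ∈ (tupModel (setOf n a) (res m w)).edges ↔
          dig 2 a (vecE n (∑ i ∈ s, res m w i) : ℕ) = 1 := by
        change (s.Nonempty ∧ _) ↔ _
        rw [and_iff_right (Finset.nonempty_iff_ne_empty.mpr hs)]
        rfl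
      have h2 : s.map σ.toEmbedding ∈ (codeModel c).2.edges ↔
          dig 2 c.unpair.2 (∑ i ∈ s.map σ.toEmbedding, 2 ^ (i : ℕ)) = 1 := by
        rw [← testBit_iff_dig]
        change (_ ∧ _) ↔ _
        rw [and_iff_right]
        exact (Finset.map_nonempty).mpr (Finset.nonempty_iff_ne_empty.mpr hs)
      rw [h1, h2]
    constructor
    · rintro ⟨s, hs, hinj, hI⟩
      have hlt : ∀ i, dig m s i < m := fun i => Nat.mod_lt _ (by omega)
      let f : Fin m → Fin m := finFunctionFinEquiv.symm ⟨s, hs⟩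
      have hfv : (finFunctionFinEquiv f : ℕ) = s := by simp [f]
      have hf : ∀ i : Fin m, (f i : ℕ) = dig m s i := fun i => rfl
      have hfi : Function.Injective f := by
        intro i j hij
        by_contra hne
        have hv : dig m s i = dig m s j := by
          rw [← hf i, ← hf j, hij]
        rcases lt_or_gt_of_ne (fun h => hne (Fin.ext h) : (i : ℕ) ≠ j) with h | h
        · exact hinj j j.2 i h hv.symm
        · exact hinj i i.2 j h hv
      let σ : Fin m ≃ Fin m := Equiv.ofBijective f (Finite.injective_iff_bijective.mp hfi)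
      have hσ : (finFunctionFinEquiv (fun i => σ i) : ℕ) = s := hfv
      refine ⟨σ, fun t => ?_⟩
      by_cases ht : t = ∅
      · subst ht
        rw [Finset.map_empty]
        exact ⟨fun h => absurd h.1 Finset.not_nonempty_empty,
          fun h => absurd h.1 Finset.not_nonempty_empty⟩
      · rw [← hstep σ t ht, hσ]
        exact hI _ (mask_lt t) (fun h => ht ((mask_eq_zero t).mp h))
    · rintro ⟨σ, hσ⟩
      refine ⟨(finFunctionFinEquiv (fun i => σ i) : ℕ), Fin.is_lt _, ?_, ?_⟩
      · intro i hi j hj heq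
        have h1 := dig_fun (fun i => σ i) (⟨i, hi⟩ : Fin m)
        have h2 := dig_fun (fun i => σ i) (⟨j, hj.trans hi⟩ : Fin m)
        simp only at h1 h2
        rw [h1, h2] at heq
        have := σ.injective (Fin.ext heq)
        rw [Fin.mk.injEq] at this
        omega
      · intro I hI hI0
        obtain ⟨t, rfl⟩ := mask_surj hI
        have ht : t ≠ ∅ := fun h => hI0 ((mask_eq_zero t).mpr h)
        rw [hstep σ t ht]
        exact hσ t
  rw [key]
  constructor
  · intro h
    exact LModel.Iso.symm h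
  · intro h
    exact LModel.Iso.symm h

theorem cnt_eq (n M c a : ℕ) :
    (cnt n M c a : ℝ) = ∑ w : Fin M → Fin n → ZMod 2,
      ind (codeModel c).2 (setOf n a) (res ((codeModel c).1 + 1) w) := by
  unfold cnt
  rw [Finset.sum_range]
  push_cast
  rw [← Equiv.sum_comp (tupE n M)]
  refine Finset.sum_congr rfl fun w _ => ?_
  unfold ind
  by_cases h : isoP n c a (tupE n M w : ℕ)
  · rw [if_pos h, if_pos ((isoP_iff c a w).mp h)]
  · rw [if_neg h, if_neg (fun h' => h ((isoP_iff c a w).mpr h'))]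

/-- restriction as a homomorphism -/
def resHom (n M m : ℕ) : (Fin M → Fin n → ZMod 2) →+ (Fin m → Fin n → ZMod 2) where
  toFun := res m
  map_zero' := by
    funext i
    simp [res]
  map_add' := by
    intro a b
    funext i
    simp only [res, Pi.add_apply]
    split_ifs <;> simp

theorem res_surj {n M m : ℕ} (h : m ≤ M) : Function.Surjective (resHom n M m) := by
  intro u
  refine ⟨fun i => if h : (i : ℕ) < m then u ⟨i, h⟩ else 0, ?_⟩
  funext i
  have hi : (i : ℕ) < M := i.2.trans_le h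
  change res m (fun i : Fin M => if h : (i : ℕ) < m then u ⟨i, h⟩ else 0) i = u i
  simp [res, hi]

theorem cnt_eq_avg (n M c a : ℕ) (h : (codeModel c).1 + 1 ≤ M) :
    (cnt n M c a : ℝ) = ((2 : ℝ) ^ n) ^ M * avg (codeModel c).2 (setOf n a) := by
  rw [cnt_eq]
  have := sum_comp_surj (resHom n M ((codeModel c).1 + 1)) (res_surj h)
    (ind (codeModel c).2 (setOf n a))
  have hc1 : (Fintype.card (Fin ((codeModel c).1 + 1) → Fin n → ZMod 2) : ℝ) =
      ((2 : ℝ) ^ n) ^ ((codeModel c).1 + 1) := by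
    simp [ZMod.card]
  have hc2 : (Fintype.card (Fin M → Fin n → ZMod 2) : ℝ) = ((2 : ℝ) ^ n) ^ M := by
    simp [ZMod.card]
  rw [hc1, hc2] at this
  unfold avg
  have hpos : (0 : ℝ) < ((2 : ℝ) ^ n) ^ ((codeModel c).1 + 1) := by positivity
  rw [mul_div_assoc', eq_div_iff hpos.ne', ← this, mul_comm]
  rfl

/-- every isomorphism class has a code -/
theorem classOfCode_surjective : Function.Surjective classOfCode := by
  classical
  intro c
  induction c using Quotient.inductionOn with
  | h K =>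
    obtain ⟨m, K⟩ := K
    -- subsets of `Fin (m+1)` with their masks
    let f : Fin (2 ^ (m + 1)) → Fin 2 := fun I =>
      if ∃ s ∈ K.edges, mask s = (I : ℕ) then 1 else 0
    refine ⟨Nat.pair m (finFunctionFinEquiv f : ℕ), ?_⟩
    apply Quotient.sound
    have hfst : (codeModel (Nat.pair m (finFunctionFinEquiv f : ℕ))) =
        (⟨m, bitModel m (finFunctionFinEquiv f : ℕ)⟩ : FinModel) := by
      unfold codeModel
      rw [Nat.unpair_pair]
    rw [hfst]
    change (bitModel m (finFunctionFinEquiv f : ℕ)).Iso K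
    refine ⟨Equiv.refl _, fun s => ?_⟩
    have hs : s.map (Equiv.refl (Fin (m + 1))).toEmbedding = s := by
      simp
    rw [hs]
    have hdef : s ∈ (bitModel m (finFunctionFinEquiv f : ℕ)).edges ↔
        (s.Nonempty ∧ (finFunctionFinEquiv f : ℕ).testBit (mask s) = true) := Iff.rfl
    rw [hdef, testBit_iff_dig]
    have h1 : dig 2 (finFunctionFinEquiv f : ℕ) (mask s) = f ⟨mask s, mask_lt s⟩ :=
      dig_fun f ⟨mask s, mask_lt s⟩
    rw [h1]
    simp only [f]
    have minj : ∀ s t : Finset (Fin (m + 1)), mask s = mask t → s = t := by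
      intro s t hst
      ext i
      have h3 := dig_mask s i
      have h4 := dig_mask t i
      rw [hst, h4] at h3
      by_cases h5 : i ∈ s <;> by_cases h6 : i ∈ t <;> simp [h5, h6] at h3 ⊢
    constructor
    · rintro ⟨_, h2⟩
      split_ifs at h2 with h3
      · obtain ⟨t, ht, hts⟩ := h3
        rwa [minj t s hts] at ht
      · simp at h2
    · intro hsK
      refine ⟨?_, ?_⟩
      · rw [Finset.nonempty_iff_ne_empty]
        rintro rfl
        exact K.empty_notMem hsK
      · rw [if_pos ⟨s, hsK, rfl⟩]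
        rfl

end Pool.Agent.H778R3.Lin
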