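import Mathlib

/-!
The sampling lemma: the densities of a subset of `F_2^N` are approximated by those of its
pull-back under a suitable linear map `F_2^n → F_2^N`.
-/

namespace Pool.Agent.H778R3.Lin

open Finset

/-- Averages over a finite group of a function composed with a surjective homomorphism. -/
theorem sum_comp_surj {G H : Type*} [AddGroup G] [AddGroup H] [Fintype G] [Fintype H]
    (φ : G →+ H) (hφ : Function.Surjective φ) (h : H → ℝ) :
    (Fintype.card H : ℝ) * ∑ g, h (φ g) = (Fintype.card G : ℝ) * ∑ u, h u := by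
  have h1 : ∀ u : H, ∑ g, h (φ g) = ∑ g, h (φ g + u) := by
    intro u
    obtain ⟨g0, hg0⟩ := hφ u
    rw [← Equiv.sum_comp (Equiv.addRight g0) (fun g => h (φ g))]
    refine Finset.sum_congr rfl fun g _ => ?_
    simp [hg0]
  have h2 : ∀ g : G, ∑ u, h (φ g + u) = ∑ u, h u := by
    intro g
    exact Equiv.sum_comp (Equiv.addLeft (φ g)) h
  calc (Fintype.card H : ℝ) * ∑ g, h (φ g) = ∑ _u : H, ∑ g, h (φ g) := by
        rw [Finset.sum_const, Finset.card_univ, nsmul_eq_mul]
    _ = ∑ u : H, ∑ g, h (φ g + u) := Finset.sum_congr rfl fun u _ => h1 u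
    _ = ∑ g, ∑ u : H, h (φ g + u) := Finset.sum_comm
    _ = ∑ _g : G, ∑ u, h u := Finset.sum_congr rfl fun g _ => h2 g
    _ = (Fintype.card G : ℝ) * ∑ u, h u := by
        rw [Finset.sum_const, Finset.card_univ, nsmul_eq_mul]

/-- Linear combinations. -/
def lc {ι : Type*} {n N : ℕ} (w : ι → Fin n → ZMod 2) (L : Fin n → Fin N → ZMod 2) :
    ι → Fin N → ZMod 2 :=
  fun i => ∑ j, w i j • L j

/-- `lc w` as a homomorphism. -/
def lcHom {ι : Type*} {n N : ℕ} (w : ι → Fin n → ZMod 2) :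
    (Fin n → Fin N → ZMod 2) →+ (ι → Fin N → ZMod 2) where
  toFun := lc w
  map_zero' := by
    funext i; simp [lc]
  map_add' := by
    intro a b
    funext i
    simp [lc, Finset.sum_add_distrib, smul_add]

theorem lc_surj {ι : Type*} [Fintype ι] {n N : ℕ} (w : ι → Fin n → ZMod 2)
    (hw : LinearIndependent (ZMod 2) w) : Function.Surjective (lcHom (N := N) w) := by
  classical
  intro u
  obtain ⟨Ψ, hΨ⟩ := LinearMap.exists_leftInverse_of_injective
    (Fintype.linearCombination (ZMod 2) w)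
    (by
      rw [LinearMap.ker_eq_bot]
      exact hw.fintypeLinearCombination_injective)
  have hv : ∀ i, Ψ (w i) = Pi.single i 1 := by
    intro i
    have := LinearMap.congr_fun hΨ (Pi.single i 1)
    simpa [Fintype.linearCombination_apply_single] using this
  let T : (Fin n → ZMod 2) →ₗ[ZMod 2] (Fin N → ZMod 2) :=
    (Fintype.linearCombination (ZMod 2) u) ∘ₗ Ψ
  refine ⟨fun j => T (Pi.single j 1), ?_⟩
  funext i
  change ∑ j, w i j • T (Pi.single j 1) = u i
  have h1 : T (w i) = u i := by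
    simp [T, hv i, Fintype.linearCombination_apply_single]
  rw [← h1]
  conv_rhs => rw [pi_eq_sum_univ' (w i)]
  rw [map_sum]
  refine Finset.sum_congr rfl fun j _ => ?_
  rw [← map_smul]

open Classical in
/-- Few tuples are linearly dependent. -/
theorem card_dep {ι : Type*} [Fintype ι] [DecidableEq ι] (n : ℕ) :
    (2 : ℝ) ^ n * ((univ.filter (fun w : ι → Fin n → ZMod 2 =>
      ¬ LinearIndependent (ZMod 2) w)).card : ℝ) ≤
      (2 : ℝ) ^ (Fintype.card ι) * ((2 : ℝ) ^ n) ^ (Fintype.card ι) := by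
  have hsub : (univ.filter (fun w : ι → Fin n → ZMod 2 => ¬ LinearIndependent (ZMod 2) w)) ⊆
      (univ.filter (fun l : ι → ZMod 2 => l ≠ 0)).biUnion
        (fun l => univ.filter (fun w : ι → Fin n → ZMod 2 => ∑ i, l i • w i = 0)) := by
    intro w hw
    simp only [mem_filter, mem_univ, true_and] at hw
    rw [Fintype.not_linearIndependent_iff] at hw
    obtain ⟨l, hl, i, hi⟩ := hw
    simp only [mem_biUnion, mem_filter, mem_univ, true_and]
    exact ⟨l, fun h => hi (by rw [h]; rfl), hl⟩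
  have hfib : ∀ l : ι → ZMod 2, l ≠ 0 →
      (2 : ℝ) ^ n * ((univ.filter (fun w : ι → Fin n → ZMod 2 =>
        ∑ i, l i • w i = 0)).card : ℝ) = ((2 : ℝ) ^ n) ^ (Fintype.card ι) := by
    intro l hl
    obtain ⟨i0, hi0⟩ : ∃ i, l i ≠ 0 := by
      by_contra h
      push Not at h
      exact hl (funext h)
    let φ : (ι → Fin n → ZMod 2) →+ (Fin n → ZMod 2) :=
      { toFun := fun w => ∑ i, l i • w i
        map_zero' := by simp
        map_add' := by
          intro a b
          simp [Finset.sum_add_distrib, smul_add] }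
    have hφ : Function.Surjective φ := by
      intro v
      refine ⟨Pi.single i0 v, ?_⟩
      change ∑ i, l i • (Pi.single i0 v : ι → Fin n → ZMod 2) i = v
      rw [Finset.sum_eq_single i0]
      · have : l i0 = 1 := by
          generalize l i0 = a at hi0 ⊢
          revert hi0
          revert a
          decide
        simp [this]
      · intro b _ hb
        simp [hb]
      · intro h
        exact absurd (mem_univ _) h
    have := sum_comp_surj φ hφ (fun v => if v = 0 then (1 : ℝ) else 0)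
    simp only [Finset.sum_ite_eq', mem_univ, if_true] at this
    rw [Finset.sum_ite, Finset.sum_const_zero, add_zero, Finset.sum_const, nsmul_eq_mul,
      mul_one, mul_one] at this
    have hc1 : (Fintype.card (Fin n → ZMod 2) : ℝ) = (2 : ℝ) ^ n := by
      simp [ZMod.card]
    have hc2 : (Fintype.card (ι → Fin n → ZMod 2) : ℝ) = ((2 : ℝ) ^ n) ^ (Fintype.card ι) := by
      simp [ZMod.card]
    rw [hc1, hc2] at this
    exact this
  calc (2 : ℝ) ^ n * ((univ.filter (fun w : ι → Fin n → ZMod 2 =>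
      ¬ LinearIndependent (ZMod 2) w)).card : ℝ)
      ≤ (2 : ℝ) ^ n * (∑ l ∈ univ.filter (fun l : ι → ZMod 2 => l ≠ 0),
        (univ.filter (fun w : ι → Fin n → ZMod 2 => ∑ i, l i • w i = 0)).card : ℝ) := by
        apply mul_le_mul_of_nonneg_left _ (by positivity)
        have := (Finset.card_le_card hsub).trans Finset.card_biUnion_le
        exact_mod_cast this
    _ = ∑ l ∈ univ.filter (fun l : ι → ZMod 2 => l ≠ 0),
        ((2 : ℝ) ^ n) ^ (Fintype.card ι) := by
        rw [Finset.mul_sum]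
        refine Finset.sum_congr rfl fun l hl => ?_
        exact hfib l (by simpa using hl)
    _ ≤ ∑ _l : ι → ZMod 2, ((2 : ℝ) ^ n) ^ (Fintype.card ι) := by
        apply Finset.sum_le_sum_of_subset_of_nonneg (Finset.filter_subset _ _)
        intro _ _ _
        positivity
    _ = (2 : ℝ) ^ (Fintype.card ι) * ((2 : ℝ) ^ n) ^ (Fintype.card ι) := by
        rw [Finset.sum_const, nsmul_eq_mul, Finset.card_univ]
        simp [ZMod.card]

open Classical in
/-- Second moment estimate. -/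
theorem second_moment {M n N : ℕ} (g : (Fin M → Fin N → ZMod 2) → ℝ) (hg : ∀ u, |g u| ≤ 1)
    (hsum : ∑ u, g u = 0) :
    (2 : ℝ) ^ n * ∑ L : Fin n → Fin N → ZMod 2, (∑ w : Fin M → Fin n → ZMod 2, g (lc w L)) ^ 2 ≤
      (Fintype.card (Fin n → Fin N → ZMod 2) : ℝ) * (4 ^ M * (((2 : ℝ) ^ n) ^ M) ^ 2) := by
  set G := (Fin n → Fin N → ZMod 2) with hG
  have hin : ∀ w w' : Fin M → Fin n → ZMod 2,
      LinearIndependent (ZMod 2) (Sum.elim w w') →
      ∑ L : G, g (lc w L) * g (lc w' L) = 0 := by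
    intro w w' hw
    have := sum_comp_surj (lcHom (N := N) (Sum.elim w w')) (lc_surj _ hw)
      (fun u => g (fun i => u (Sum.inl i)) * g (fun i => u (Sum.inr i)))
    have h1 : ∀ L : G, (fun i => (lcHom (N := N) (Sum.elim w w')) L (Sum.inl i)) = lc w L := by
      intro L; rfl
    have h2 : ∀ L : G, (fun i => (lcHom (N := N) (Sum.elim w w')) L (Sum.inr i)) = lc w' L := by
      intro L; rfl
    simp only [h1, h2] at this
    have h3 : ∑ u : (Fin M ⊕ Fin M) → Fin N → ZMod 2,
        g (fun i => u (Sum.inl i)) * g (fun i => u (Sum.inr i)) = 0 := by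
      have e := Equiv.sum_comp (Equiv.sumArrowEquivProdArrow (Fin M) (Fin M) (Fin N → ZMod 2))
        (fun p => g p.1 * g p.2)
      have h4 : ∑ p : (Fin M → Fin N → ZMod 2) × (Fin M → Fin N → ZMod 2), g p.1 * g p.2 = 0 := by
        rw [Fintype.sum_prod_type]
        simp only [← Finset.mul_sum, hsum, mul_zero, Finset.sum_const_zero]
      rw [h4] at e
      exact e
    rw [h3, mul_zero] at this
    have hc : (Fintype.card ((Fin M ⊕ Fin M) → Fin N → ZMod 2) : ℝ) ≠ 0 := by
      have : 0 < Fintype.card ((Fin M ⊕ Fin M) → Fin N → ZMod 2) := Fintype.card_pos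
      positivity
    exact (mul_eq_zero.mp this).resolve_left hc
  have habs : ∀ u v, g u * g v ≤ 1 := by
    intro u v
    have := mul_le_mul (hg u) (hg v) (abs_nonneg _) zero_le_one
    rw [← abs_mul, mul_one] at this
    exact (le_abs_self _).trans this
  have hexp : ∑ L : G, (∑ w : Fin M → Fin n → ZMod 2, g (lc w L)) ^ 2 =
      ∑ p : (Fin M → Fin n → ZMod 2) × (Fin M → Fin n → ZMod 2),
        ∑ L : G, g (lc p.1 L) * g (lc p.2 L) := by
    rw [Finset.sum_comm]
    refine Finset.sum_congr rfl fun L _ => ?_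
    rw [sq, Finset.sum_mul_sum, Fintype.sum_prod_type]
  rw [hexp]
  have hle : ∑ p : (Fin M → Fin n → ZMod 2) × (Fin M → Fin n → ZMod 2),
        ∑ L : G, g (lc p.1 L) * g (lc p.2 L) ≤
      ∑ p : (Fin M → Fin n → ZMod 2) × (Fin M → Fin n → ZMod 2),
        (if ¬ LinearIndependent (ZMod 2) (Sum.elim p.1 p.2) then (Fintype.card G : ℝ) else 0) := by
    refine Finset.sum_le_sum fun p _ => ?_
    by_cases h : LinearIndependent (ZMod 2) (Sum.elim p.1 p.2)
    · rw [if_neg (not_not.mpr h), hin p.1 p.2 h]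
    · rw [if_pos h]
      calc ∑ L : G, g (lc p.1 L) * g (lc p.2 L) ≤ ∑ _L : G, (1 : ℝ) :=
            Finset.sum_le_sum fun L _ => habs _ _
        _ = Fintype.card G := by simp
  have hcount : ∑ p : (Fin M → Fin n → ZMod 2) × (Fin M → Fin n → ZMod 2),
        (if ¬ LinearIndependent (ZMod 2) (Sum.elim p.1 p.2) then (Fintype.card G : ℝ) else 0) =
      (Fintype.card G : ℝ) * ((univ.filter (fun w : (Fin M ⊕ Fin M) → Fin n → ZMod 2 =>
        ¬ LinearIndependent (ZMod 2) w)).card : ℝ) := by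
    have e := Equiv.sum_comp (Equiv.sumArrowEquivProdArrow (Fin M) (Fin M) (Fin n → ZMod 2)).symm
      (fun w => if ¬ LinearIndependent (ZMod 2) w then (Fintype.card G : ℝ) else 0)
    have e' : ∀ p : (Fin M → Fin n → ZMod 2) × (Fin M → Fin n → ZMod 2),
        (Equiv.sumArrowEquivProdArrow (Fin M) (Fin M) (Fin n → ZMod 2)).symm p =
          Sum.elim p.1 p.2 := by
      intro p; rfl
    simp only [e'] at e
    rw [e, Finset.sum_ite, Finset.sum_const_zero, add_zero, Finset.sum_const, nsmul_eq_mul,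
      mul_comm]
  have hdep := card_dep (ι := Fin M ⊕ Fin M) n
  have hcard : Fintype.card (Fin M ⊕ Fin M) = M + M := by simp
  rw [hcard] at hdep
  calc (2 : ℝ) ^ n * ∑ p : (Fin M → Fin n → ZMod 2) × (Fin M → Fin n → ZMod 2),
        ∑ L : G, g (lc p.1 L) * g (lc p.2 L)
      ≤ (2 : ℝ) ^ n * ((Fintype.card G : ℝ) * ((univ.filter (fun w : (Fin M ⊕ Fin M) →
        Fin n → ZMod 2 => ¬ LinearIndependent (ZMod 2) w)).card : ℝ)) := by
        rw [← hcount]
        exact mul_le_mul_of_nonneg_left hle (by positivity)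
    _ = (Fintype.card G : ℝ) * ((2 : ℝ) ^ n * ((univ.filter (fun w : (Fin M ⊕ Fin M) →
        Fin n → ZMod 2 => ¬ LinearIndependent (ZMod 2) w)).card : ℝ)) := by ring
    _ ≤ (Fintype.card G : ℝ) * ((2 : ℝ) ^ (M + M) * ((2 : ℝ) ^ n) ^ (M + M)) :=
        mul_le_mul_of_nonneg_left hdep (by positivity)
    _ = (Fintype.card G : ℝ) * (4 ^ M * (((2 : ℝ) ^ n) ^ M) ^ 2) := by
        have h4 : (4 : ℝ) ^ M = 2 ^ (M + M) := by
          rw [← two_mul, pow_mul]; norm_num
        rw [h4, ← pow_mul (((2 : ℝ) ^ n)) M 2, mul_two]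

/-- The sampling lemma for finitely many functions. -/
theorem exists_sample {M n N : ℕ} {κ : Type*} [Fintype κ]
    (g : κ → (Fin M → Fin N → ZMod 2) → ℝ) (hg : ∀ j u, |g j u| ≤ 1)
    (hsum : ∀ j, ∑ u, g j u = 0) :
    ∃ L : Fin n → Fin N → ZMod 2,
      (2 : ℝ) ^ n * ∑ j, (∑ w : Fin M → Fin n → ZMod 2, g j (lc w L)) ^ 2 ≤
        (Fintype.card κ : ℝ) * (4 ^ M * (((2 : ℝ) ^ n) ^ M) ^ 2) := by
  by_contra hcon
  push Not at hcon
  have h1 : ∑ _L : Fin n → Fin N → ZMod 2,
      (Fintype.card κ : ℝ) * (4 ^ M * (((2 : ℝ) ^ n) ^ M) ^ 2) <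
      ∑ L : Fin n → Fin N → ZMod 2,
        (2 : ℝ) ^ n * ∑ j, (∑ w : Fin M → Fin n → ZMod 2, g j (lc w L)) ^ 2 :=
    Finset.sum_lt_sum_of_nonempty ⟨fun _ => 0, mem_univ _⟩ fun L _ => hcon L
  have h2 : ∑ L : Fin n → Fin N → ZMod 2,
        (2 : ℝ) ^ n * ∑ j, (∑ w : Fin M → Fin n → ZMod 2, g j (lc w L)) ^ 2 =
      ∑ j, (2 : ℝ) ^ n * ∑ L : Fin n → Fin N → ZMod 2,
        (∑ w : Fin M → Fin n → ZMod 2, g j (lc w L)) ^ 2 := by
    rw [← Finset.mul_sum, ← Finset.mul_sum, Finset.sum_comm]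
  have h3 : ∑ j, (2 : ℝ) ^ n * ∑ L : Fin n → Fin N → ZMod 2,
        (∑ w : Fin M → Fin n → ZMod 2, g j (lc w L)) ^ 2 ≤
      ∑ _j : κ, (Fintype.card (Fin n → Fin N → ZMod 2) : ℝ) *
        (4 ^ M * (((2 : ℝ) ^ n) ^ M) ^ 2) :=
    Finset.sum_le_sum fun j _ => second_moment (g j) (hg j) (hsum j)
  rw [Finset.sum_const, nsmul_eq_mul, Finset.card_univ] at h1
  rw [Finset.sum_const, nsmul_eq_mul, Finset.card_univ] at h3
  rw [h2] at h1
  have : (Fintype.card (Fin n → Fin N → ZMod 2) : ℝ) *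
      ((Fintype.card κ : ℝ) * (4 ^ M * (((2 : ℝ) ^ n) ^ M) ^ 2)) =
      (Fintype.card κ : ℝ) * ((Fintype.card (Fin n → Fin N → ZMod 2) : ℝ) *
        (4 ^ M * (((2 : ℝ) ^ n) ^ M) ^ 2)) := by ring
  linarith

end Pool.Agent.H778R3.Lin
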