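import Pool.Agent.H778R3.Lin.Defs
import Pool.Agent.H778R3.Lin.Sampling

/-!
The induced densities of `M_A` compared with the averages over all tuples of vectors.
-/

namespace Pool.Agent.H778R3.Lin

open Finset

/-- pull-back of a model along an embedding -/
def LModel.pull {V W : Type} (N : LModel V) (w : W ↪ V) : LModel W where
  edges := {s | s.map w ∈ N.edges}
  empty_notMem := by simpa using N.empty_notMem

/-- the model on `Fin m` read off from a tuple of vectors -/
def tupModel {n m : ℕ} (A : Set (Fin n → ZMod 2)) (w : Fin m → Fin n → ZMod 2) :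
    LModel (Fin m) where
  edges := {s | s.Nonempty ∧ ∑ i ∈ s, w i ∈ A}
  empty_notMem := fun h => Finset.not_nonempty_empty h.1

theorem pull_linModel {n m : ℕ} (A : Set (Fin n → ZMod 2)) (w : Fin m ↪ (Fin n → ZMod 2)) :
    (linModel A).pull w = tupModel A w := by
  unfold LModel.pull tupModel linModel
  congr 1
  ext s
  simp

theorem pull_iso_induce {V : Type} {m : ℕ} (N : LModel V) (w : Fin m ↪ V) (W : Finset V)
    (h : univ.map w = W) : (N.pull w).Iso (N.induce W) := by
  subst h
  have hb : Function.Bijective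
      (fun i : Fin m => (⟨w i, by simp⟩ : {x // x ∈ (univ : Finset (Fin m)).map w})) := by
    constructor
    · intro i j hij
      exact w.injective (congrArg Subtype.val hij)
    · rintro ⟨x, hx⟩
      simp only [mem_map, mem_univ, true_and] at hx
      obtain ⟨i, hi⟩ := hx
      exact ⟨i, Subtype.ext hi⟩
  refine ⟨Equiv.ofBijective _ hb, fun s => ?_⟩
  change s.map w ∈ N.edges ↔ (s.map _).map _ ∈ N.edges
  rw [Finset.map_map]
  rfl

open Classical in
theorem card_fiber {V : Type} [Fintype V] {m : ℕ} (W : Finset V) (hW : W.card = m) :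
    (univ.filter (fun w : Fin m ↪ V => univ.map w = W)).card = m.factorial := by
  have hcard : Fintype.card (Fin m) = Fintype.card W := by simp [hW]
  let e0 : Fin m ≃ W := Fintype.equivOfCardEq hcard
  let F : Equiv.Perm (Fin m) → (Fin m ↪ V) := fun σ =>
    (σ.trans e0).toEmbedding.trans (Function.Embedding.subtype _)
  have hF : Function.Injective F := by
    intro σ τ h
    ext i
    have := DFunLike.congr_fun h i
    simp only [F, Function.Embedding.trans_apply, Equiv.toEmbedding_apply,
      Function.Embedding.subtype_apply, Equiv.trans_apply] at this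
    have := e0.injective (Subtype.ext this)
    rw [this]
  have himg : univ.filter (fun w : Fin m ↪ V => univ.map w = W) = univ.image F := by
    ext w
    simp only [mem_filter, mem_univ, true_and, mem_image]
    constructor
    · intro hw
      have hmem : ∀ i, w i ∈ W := by
        intro i; rw [← hw]; simp
      have hb : Function.Bijective (fun i : Fin m => (⟨w i, hmem i⟩ : W)) := by
        constructor
        · intro i j hij
          exact w.injective (congrArg Subtype.val hij)
        · rintro ⟨x, hx⟩
          rw [← hw] at hx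
          simp only [mem_map, mem_univ, true_and] at hx
          obtain ⟨i, hi⟩ := hx
          exact ⟨i, Subtype.ext hi⟩
      refine ⟨(Equiv.ofBijective _ hb).trans e0.symm, ?_⟩
      ext i
      simp [F]
    · rintro ⟨σ, rfl⟩
      ext x
      simp only [mem_map, mem_univ, true_and, F, Function.Embedding.trans_apply,
        Equiv.toEmbedding_apply, Function.Embedding.subtype_apply]
      constructor
      · rintro ⟨i, rfl⟩
        exact (e0 (σ i)).2
      · intro hx
        exact ⟨σ.symm (e0.symm ⟨x, hx⟩), by simp⟩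
  rw [himg, Finset.card_image_of_injective _ hF, Finset.card_univ, Fintype.card_perm,
    Fintype.card_fin]

open Classical in
theorem card_emb_iso {V : Type} [Fintype V] {m : ℕ} (K : LModel (Fin m)) (N : LModel V) :
    (univ.filter (fun w : Fin m ↪ V => K.Iso (N.pull w))).card =
      m.factorial * (((univ : Finset V).powersetCard m).filter
        (fun W => K.Iso (N.induce W))).card := by
  have hmaps : ∀ w ∈ univ.filter (fun w : Fin m ↪ V => K.Iso (N.pull w)),
      univ.map w ∈ ((univ : Finset V).powersetCard m).filter (fun W => K.Iso (N.induce W)) := by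
    intro w hw
    simp only [mem_filter, mem_univ, true_and] at hw
    simp only [mem_filter, mem_powersetCard, subset_univ, true_and, card_map, card_univ,
      Fintype.card_fin]
    exact hw.trans (pull_iso_induce N w _ rfl)
  rw [Finset.card_eq_sum_card_fiberwise hmaps]
  rw [Finset.sum_congr rfl (g := fun _ => m.factorial)]
  · rw [Finset.sum_const, smul_eq_mul, mul_comm]
  · intro W hW
    simp only [mem_filter, mem_powersetCard, subset_univ, true_and] at hW
    rw [← card_fiber W hW.1]
    congr 1
    ext w
    simp only [mem_filter, mem_univ, true_and, and_iff_right_iff_imp]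
    intro h
    exact hW.2.trans (pull_iso_induce N w W h).symm

open Classical in
/-- indicator that the tuple `w` of vectors induces a model isomorphic to `K` -/
noncomputable def ind {n m : ℕ} (K : LModel (Fin m)) (A : Set (Fin n → ZMod 2))
    (w : Fin m → Fin n → ZMod 2) : ℝ :=
  if K.Iso (tupModel A w) then 1 else 0

theorem ind_nonneg {n m : ℕ} (K : LModel (Fin m)) (A : Set (Fin n → ZMod 2))
    (w : Fin m → Fin n → ZMod 2) : 0 ≤ ind K A w := by
  unfold ind; split_ifs <;> norm_num

theorem ind_le_one {n m : ℕ} (K : LModel (Fin m)) (A : Set (Fin n → ZMod 2))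
    (w : Fin m → Fin n → ZMod 2) : ind K A w ≤ 1 := by
  unfold ind; split_ifs <;> norm_num

/-- average over all tuples -/
noncomputable def avg {n m : ℕ} (K : LModel (Fin m)) (A : Set (Fin n → ZMod 2)) : ℝ :=
  (∑ w : Fin m → Fin n → ZMod 2, ind K A w) / ((2 : ℝ) ^ n) ^ m

open Classical in
theorem sum_inj {n m : ℕ} (K : LModel (Fin m)) (A : Set (Fin n → ZMod 2)) :
    ∑ w ∈ univ.filter (fun w : Fin m → Fin n → ZMod 2 => Function.Injective w), ind K A w =
      ((univ.filter (fun w : Fin m ↪ (Fin n → ZMod 2) => K.Iso ((linModel A).pull w))).card : ℝ)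
      := by
  unfold ind
  rw [← Finset.sum_filter_add_sum_filter_not _ (fun w => K.Iso (tupModel A w))]
  rw [Finset.sum_congr rfl (g := fun _ => (1 : ℝ))
    (fun w hw => if_pos (Finset.mem_filter.mp hw).2)]
  rw [Finset.sum_congr (s₁ := Finset.filter (fun x => ¬ K.Iso (tupModel A x)) _) rfl
    (g := fun _ => (0 : ℝ)) (fun w hw => if_neg (Finset.mem_filter.mp hw).2)]
  rw [Finset.sum_const_zero, add_zero, Finset.sum_const, nsmul_eq_mul, mul_one]
  congr 1
  symm
  apply Finset.card_bij (fun (w : Fin m ↪ (Fin n → ZMod 2)) _ => (w : Fin m → Fin n → ZMod 2))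
  · intro w hw
    simp only [mem_filter, mem_univ, true_and] at hw ⊢
    exact ⟨w.injective, by rwa [pull_linModel] at hw⟩
  · intro w _ w' _ h
    exact DFunLike.coe_injective h
  · intro w hw
    simp only [mem_filter, mem_univ, true_and] at hw
    refine ⟨⟨w, hw.1⟩, ?_, rfl⟩
    simp only [mem_filter, mem_univ, true_and]
    rw [pull_linModel]
    exact hw.2

open Classical in
theorem card_noninj (n m : ℕ) :
    (2 : ℝ) ^ n * ((univ.filter (fun w : Fin m → Fin n → ZMod 2 =>
      ¬ Function.Injective w)).card : ℝ) ≤ (m : ℝ) ^ 2 * ((2 : ℝ) ^ n) ^ m := by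
  have hsub : (univ.filter (fun w : Fin m → Fin n → ZMod 2 => ¬ Function.Injective w)) ⊆
      (univ.filter (fun p : Fin m × Fin m => p.1 ≠ p.2)).biUnion
        (fun p => univ.filter (fun w : Fin m → Fin n → ZMod 2 => w p.1 - w p.2 = 0)) := by
    intro w hw
    have hw := (mem_filter.mp hw).2
    simp only [Function.Injective] at hw
    push Not at hw
    obtain ⟨i, j, hij, hne⟩ := hw
    simp only [mem_biUnion, mem_filter, mem_univ, true_and]
    exact ⟨(i, j), hne, by simp [hij]⟩
  have hfib : ∀ p : Fin m × Fin m, p.1 ≠ p.2 →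
      (2 : ℝ) ^ n * ((univ.filter (fun w : Fin m → Fin n → ZMod 2 =>
        w p.1 - w p.2 = 0)).card : ℝ) = ((2 : ℝ) ^ n) ^ m := by
    intro p hp
    let φ : (Fin m → Fin n → ZMod 2) →+ (Fin n → ZMod 2) :=
      { toFun := fun w => w p.1 - w p.2
        map_zero' := by simp
        map_add' := by
          intro a b
          simp only [Pi.add_apply]
          abel }
    have hφ : Function.Surjective φ := by
      intro v
      refine ⟨Pi.single p.1 v, ?_⟩
      change (Pi.single p.1 v : Fin m → Fin n → ZMod 2) p.1 -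
        (Pi.single p.1 v : Fin m → Fin n → ZMod 2) p.2 = v
      rw [Pi.single_eq_same, Pi.single_eq_of_ne (Ne.symm hp), sub_zero]
    have := sum_comp_surj φ hφ (fun v => if v = 0 then (1 : ℝ) else 0)
    simp only [Finset.sum_ite_eq', mem_univ, if_true] at this
    rw [Finset.sum_ite, Finset.sum_const_zero, add_zero, Finset.sum_const, nsmul_eq_mul,
      mul_one, mul_one] at this
    have hc1 : (Fintype.card (Fin n → ZMod 2) : ℝ) = (2 : ℝ) ^ n := by
      simp [ZMod.card]
    have hc2 : (Fintype.card (Fin m → Fin n → ZMod 2) : ℝ) = ((2 : ℝ) ^ n) ^ m := by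
      simp [ZMod.card]
    rw [hc1, hc2] at this
    exact this
  calc (2 : ℝ) ^ n * ((univ.filter (fun w : Fin m → Fin n → ZMod 2 =>
      ¬ Function.Injective w)).card : ℝ)
      ≤ (2 : ℝ) ^ n * (∑ p ∈ univ.filter (fun p : Fin m × Fin m => p.1 ≠ p.2),
        (univ.filter (fun w : Fin m → Fin n → ZMod 2 => w p.1 - w p.2 = 0)).card : ℝ) := by
        apply mul_le_mul_of_nonneg_left _ (by positivity)
        have := (Finset.card_le_card hsub).trans Finset.card_biUnion_le
        exact_mod_cast this
    _ = ∑ p ∈ univ.filter (fun p : Fin m × Fin m => p.1 ≠ p.2), ((2 : ℝ) ^ n) ^ m := by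
        rw [Finset.mul_sum]
        refine Finset.sum_congr rfl fun l hl => ?_
        exact hfib l (by simpa using hl)
    _ ≤ ∑ _p : Fin m × Fin m, ((2 : ℝ) ^ n) ^ m := by
        apply Finset.sum_le_sum_of_subset_of_nonneg (Finset.filter_subset _ _)
        intro _ _ _
        positivity
    _ = (m : ℝ) ^ 2 * ((2 : ℝ) ^ n) ^ m := by
        rw [Finset.sum_const, nsmul_eq_mul, Finset.card_univ]
        simp
        ring

/-- elementary estimate -/
theorem ratio_estimate {a c e C : ℝ} (ha : 0 ≤ a) (hac : a ≤ c) (he : 0 ≤ e) (heC : e ≤ C - c)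
    (hc : 0 < c) : |a / c - (a + e) / C| ≤ (C - c) / C := by
  have hC : 0 < C := by linarith
  have hcC : c ≤ C := by linarith
  rw [abs_le]
  constructor
  · have h1 : a / C ≤ a / c := div_le_div_of_nonneg_left ha hc hcC
    have h2 : (a + e) / C = a / C + e / C := by ring
    have h3 : e / C ≤ (C - c) / C := div_le_div_of_nonneg_right heC hC.le
    rw [h2]
    linarith
  · have h2 : a / C ≤ (a + e) / C := div_le_div_of_nonneg_right (by linarith) hC.le
    have h3 : a / c - a / C = (a / c) * ((C - c) / C) := by
      field_simp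
    have h4 : a / c ≤ 1 := div_le_one_of_le₀ hac hc.le
    have h5 : 0 ≤ (C - c) / C := div_nonneg (by linarith) hC.le
    have h6 : (a / c) * ((C - c) / C) ≤ (C - c) / C := by
      calc (a / c) * ((C - c) / C) ≤ 1 * ((C - c) / C) := mul_le_mul_of_nonneg_right h4 h5
        _ = _ := one_mul _
    linarith

/-- densities against averages over all tuples -/
theorem density_sub_avg {n : ℕ} (K : FinModel) (A : Set (Fin n → ZMod 2))
    (hn : K.1 + 1 ≤ 2 ^ n) :
    |density K (linModel A) - avg K.2 A| ≤ ((K.1 : ℝ) + 1) ^ 2 / 2 ^ n := by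
  classical
  obtain ⟨m', K⟩ := K
  replace hn : m' + 1 ≤ 2 ^ n := hn
  set a : ℝ := ∑ w ∈ univ.filter (fun w : Fin (m' + 1) → Fin n → ZMod 2 => Function.Injective w),
    ind K A w with ha
  set e : ℝ := ∑ w ∈ univ.filter (fun w : Fin (m' + 1) → Fin n → ZMod 2 => ¬ Function.Injective w),
    ind K A w with he
  set c : ℝ := ((univ.filter (fun w : Fin (m' + 1) → Fin n → ZMod 2 => Function.Injective w)).card : ℝ)
    with hc
  set d : ℝ := ((univ.filter (fun w : Fin (m' + 1) → Fin n → ZMod 2 =>
    ¬ Function.Injective w)).card : ℝ) with hd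
  set C : ℝ := ((2 : ℝ) ^ n) ^ (m' + 1) with hC
  have hcd : c + d = C := by
    have := Finset.card_filter_add_card_filter_not (s := (univ : Finset (Fin (m' + 1) → Fin n → ZMod 2)))
      (fun w => Function.Injective w)
    rw [hc, hd, hC]
    rw [← Nat.cast_add, this, Finset.card_univ]
    simp [ZMod.card]
  have hae : a + e = ∑ w : Fin (m' + 1) → Fin n → ZMod 2, ind K A w :=
    Finset.sum_filter_add_sum_filter_not _ _ _
  have hcdesc : c = ((2 ^ n).descFactorial (m' + 1) : ℝ) := by
    have h1 : (univ.filter (fun w : Fin (m' + 1) → Fin n → ZMod 2 => Function.Injective w)).card =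
        Fintype.card (Fin (m' + 1) ↪ (Fin n → ZMod 2)) := by
      rw [← Finset.card_univ]
      symm
      apply Finset.card_bij
        (fun (w : Fin (m' + 1) ↪ (Fin n → ZMod 2)) _ => (w : Fin (m' + 1) → Fin n → ZMod 2))
      · intro w _
        simpa using w.injective
      · intro w _ w' _ h
        exact DFunLike.coe_injective h
      · intro w hw
        simp only [mem_filter, mem_univ, true_and] at hw
        exact ⟨⟨w, hw⟩, mem_univ _, rfl⟩
    rw [hc, h1, Fintype.card_embedding_eq]
    simp [ZMod.card]
  have hcpos : 0 < c := by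
    rw [hcdesc]
    exact_mod_cast Nat.descFactorial_pos.mpr hn
  have hdens : density ⟨m', K⟩ (linModel A) = a / c := by
    have h1 := sum_inj K A
    rw [card_emb_iso] at h1
    rw [ha, h1, hcdesc, Nat.descFactorial_eq_factorial_mul_choose]
    unfold density
    have hcard : Fintype.card (Fin n → ZMod 2) = 2 ^ n := by simp [ZMod.card]
    rw [hcard]
    push_cast
    rw [mul_div_mul_left _ _ (by positivity)]
  have ha0 : 0 ≤ a := Finset.sum_nonneg fun w _ => ind_nonneg K A w
  have he0 : 0 ≤ e := Finset.sum_nonneg fun w _ => ind_nonneg K A w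
  have hac : a ≤ c := by
    rw [ha, hc]
    calc _ ≤ ∑ _w ∈ univ.filter (fun w : Fin (m' + 1) → Fin n → ZMod 2 => Function.Injective w),
          (1 : ℝ) := Finset.sum_le_sum fun w _ => ind_le_one K A w
      _ = _ := by simp
  have hed : e ≤ C - c := by
    have : e ≤ d := by
      rw [he, hd]
      calc _ ≤ ∑ _w ∈ univ.filter (fun w : Fin (m' + 1) → Fin n → ZMod 2 => ¬ Function.Injective w),
            (1 : ℝ) := Finset.sum_le_sum fun w _ => ind_le_one K A w
        _ = _ := by simp
    linarith
  have hmain := ratio_estimate ha0 hac he0 hed hcpos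
  rw [hdens]
  unfold avg
  change |a / c - (∑ w : Fin (m' + 1) → Fin n → ZMod 2, ind K A w) / ((2 : ℝ) ^ n) ^ (m' + 1)| ≤ _
  rw [← hae]
  refine hmain.trans ?_
  have h2 := card_noninj n (m' + 1)
  have hCpos : 0 < C := by positivity
  have h2n : (0 : ℝ) < 2 ^ n := by positivity
  rw [div_le_div_iff₀ hCpos h2n]
  have hCc : C - c = d := by linarith
  rw [hCc]
  push_cast at h2
  calc d * 2 ^ n = 2 ^ n * d := by ring
    _ ≤ ((m' : ℝ) + 1) ^ 2 * ((2 : ℝ) ^ n) ^ (m' + 1) := h2

end Pool.Agent.H778R3.Lin
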