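import Mathlib

/-!
Definitions for the problem on lineons: finite models of the theory `T_Lin`, isomorphism classes,
induced densities, the models attached to subsets of `F_2^n`, lineons, the computable
enumeration of the isomorphism classes and computably enumerable families of polynomials with
rational coefficients in the coordinates.
-/

namespace Pool.Agent.H778R3.Lin

open Finset

/-- A model of `T_Lin` on the vertex set `V`: its hyperedges are nonempty finite subsets of `V`.
The predicate `E_k` holds on `(x_1, ..., x_k)` exactly when the `x_i` are pairwise distinct and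
`{x_1, ..., x_k}` is one of the hyperedges. -/
structure LModel (V : Type) where
  /-- the hyperedges -/
  edges : Set (Finset V)
  /-- hyperedges are nonempty -/
  empty_notMem : ∅ ∉ edges

/-- Isomorphism of models. -/
def LModel.Iso {V W : Type} (M : LModel V) (N : LModel W) : Prop :=
  ∃ e : V ≃ W, ∀ s : Finset V, s ∈ M.edges ↔ s.map e.toEmbedding ∈ N.edges

/-- The submodel induced on a finite set of vertices. -/
def LModel.induce {V : Type} (N : LModel V) (W : Finset V) : LModel W where
  edges := {s | s.map (Function.Embedding.subtype _) ∈ N.edges}
  empty_notMem := by simpa using N.empty_notMem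

/-- Finite models on `[m + 1]`. -/
abbrev FinModel : Type := Σ m : ℕ, LModel (Fin (m + 1))

theorem LModel.Iso.refl {V : Type} (M : LModel V) : M.Iso M :=
  ⟨Equiv.refl V, fun s => by simp⟩

theorem LModel.Iso.symm {V W : Type} {M : LModel V} {N : LModel W} (h : M.Iso N) : N.Iso M := by
  obtain ⟨e, he⟩ := h
  refine ⟨e.symm, fun s => ?_⟩
  rw [he (s.map e.symm.toEmbedding), Finset.map_map]
  have : e.symm.toEmbedding.trans e.toEmbedding = Function.Embedding.refl W := by
    ext x; simp
  rw [this, Finset.map_refl]

theorem LModel.Iso.trans {V W U : Type} {M : LModel V} {N : LModel W} {K : LModel U}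
    (h : M.Iso N) (h' : N.Iso K) : M.Iso K := by
  obtain ⟨e, he⟩ := h
  obtain ⟨f, hf⟩ := h'
  refine ⟨e.trans f, fun s => ?_⟩
  rw [he, hf, Finset.map_map]
  rfl

/-- Isomorphism of finite models as a setoid. -/
instance isoSetoid : Setoid FinModel where
  r M N := M.2.Iso N.2
  iseqv := ⟨fun _ => LModel.Iso.refl _, fun h => LModel.Iso.symm h,
    fun h h' => LModel.Iso.trans h h'⟩

/-- The countable set of isomorphism classes of finite (nonempty) models of `T_Lin`. -/
def ModelClass : Type := Quotient isoSetoid

open Classical in
/-- `p(M, N)`: the probability that a uniformly random `|M|`-element subset of `V(N)` induces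
a submodel isomorphic to `M` (it is `0` if `|M| > |V(N)|`). -/
noncomputable def density (M : FinModel) {V : Type} [Fintype V] (N : LModel V) : ℝ :=
  ((((univ : Finset V).powersetCard (M.1 + 1)).filter (fun W => M.2.Iso (N.induce W))).card : ℝ) /
    ((Fintype.card V).choose (M.1 + 1) : ℝ)

theorem density_nonneg (M : FinModel) {V : Type} [Fintype V] (N : LModel V) :
    0 ≤ density M N := by
  unfold density; positivity

theorem density_le_one (M : FinModel) {V : Type} [Fintype V] (N : LModel V) :
    density M N ≤ 1 := by
  unfold density
  apply div_le_one_of_le₀ _ (by positivity)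
  norm_cast
  classical
  refine (Finset.card_filter_le _ _).trans ?_
  rw [Finset.card_powersetCard, Finset.card_univ]

theorem density_congr {M M' : FinModel} (h : M.2.Iso M'.2) {V : Type} [Fintype V]
    (N : LModel V) : density M N = density M' N := by
  have hc : M.1 = M'.1 := by
    obtain ⟨e, _⟩ := h
    have := Fintype.card_congr e
    simpa using this
  obtain ⟨m, M⟩ := M
  obtain ⟨m', M'⟩ := M'
  obtain rfl : m = m' := hc
  unfold density
  congr 3
  ext W
  simp only [Finset.mem_filter, and_congr_right_iff]
  intro _
  exact ⟨fun h' => h.symm.trans h', fun h' => h.trans h'⟩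

/-- The density of an isomorphism class. -/
noncomputable def densityClass (c : ModelClass) {V : Type} [Fintype V] (N : LModel V) : ℝ :=
  Quotient.lift (fun M : FinModel => density M N) (fun _ _ h => density_congr h N) c

/-- The point `p(-, N)` of the cube `[0,1]^M`. -/
noncomputable def densityPoint {V : Type} [Fintype V] (N : LModel V) :
    ModelClass → Set.Icc (0 : ℝ) 1 := fun c =>
  ⟨densityClass c N, by
    induction c using Quotient.inductionOn with
    | h M => exact ⟨density_nonneg M N, density_le_one M N⟩⟩

/-- The model `M_A` on the vertex set `F_2^n` attached to `A ⊆ F_2^n`: `E_k(x_1, ..., x_k)` holds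
iff the `x_i` are pairwise distinct (`k ≥ 1`) and `x_1 + ... + x_k ∈ A`. -/
def linModel {n : ℕ} (A : Set (Fin n → ZMod 2)) : LModel (Fin n → ZMod 2) where
  edges := {s | s.Nonempty ∧ ∑ x ∈ s, x ∈ A}
  empty_notMem := fun h => Finset.not_nonempty_empty h.1

/-- A lineon: an accumulation point in `[0,1]^M` (product topology) of the set of the points
`p(-, M_A)`, `A ⊆ F_2^n`, `n ≥ 1`. -/
def IsLineon (x : ModelClass → Set.Icc (0 : ℝ) 1) : Prop :=
  AccPt x (Filter.principal
    {y | ∃ n : ℕ, 1 ≤ n ∧ ∃ A : Set (Fin n → ZMod 2), y = densityPoint (linModel A)})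

/-- The labelled model on `[m + 1]` given by the binary digits of `b`: the nonempty set `s` is a
hyperedge iff the binary digit of `b` number `∑_{i ∈ s} 2^i` is `1`. -/
def bitModel (m b : ℕ) : LModel (Fin (m + 1)) where
  edges := {s | s.Nonempty ∧ b.testBit (∑ i ∈ s, 2 ^ (i : ℕ)) = true}
  empty_notMem := fun h => Finset.not_nonempty_empty h.1

/-- The labelled model coded by `c`: it is the model on `[m + 1]` given by `b`, where `(m, b)` is
the pair coded by `c`. -/
def codeModel (c : ℕ) : FinModel := ⟨c.unpair.1, bitModel c.unpair.1 c.unpair.2⟩

/-- The computable enumeration of the isomorphism classes. -/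
def classOfCode (c : ℕ) : ModelClass := Quotient.mk _ (codeModel c)

/-- Codes of polynomials: finite lists of monomials. The monomial `((a, b, d), l)` has rational
coefficient `(a - b) / (d + 1)` and is the product of the variables coded by the members
of `l`. -/
abbrev PolyCode : Type := List ((ℕ × ℕ × ℕ) × List ℕ)

/-- The polynomial with rational coefficients with a given code. -/
noncomputable def polyOfCode (L : PolyCode) : MvPolynomial ModelClass ℚ :=
  (L.map (fun t => MvPolynomial.C (((t.1.1 : ℚ) - (t.1.2.1 : ℚ)) / ((t.1.2.2 : ℚ) + 1)) *
    (t.2.map (fun c => MvPolynomial.X (classOfCode c))).prod)).sum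

/-- A family of polynomials with rational coefficients in finitely many coordinates is
computably enumerable if it is listed by a computable sequence of codes. -/
def CEFamily (P : Set (MvPolynomial ModelClass ℚ)) : Prop :=
  ∃ F : ℕ → PolyCode, Computable F ∧ P = Set.range (fun n => polyOfCode (F n))

/-- The value of a polynomial with rational coefficients at a point of `[0,1]^M`. -/
noncomputable def evalAt (x : ModelClass → Set.Icc (0 : ℝ) 1) (P : MvPolynomial ModelClass ℚ) :
    ℝ :=
  MvPolynomial.aeval (fun c => (x c : ℝ)) P

/-- A set of points of `[0,1]^M` has an explicit description: it is the solution set of a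
computably enumerable family of polynomial inequalities with rational coefficients. -/
def HasExplicitDescription (S : Set (ModelClass → Set.Icc (0 : ℝ) 1)) : Prop :=
  ∃ P : Set (MvPolynomial ModelClass ℚ), CEFamily P ∧ S = {x | ∀ p ∈ P, 0 ≤ evalAt x p}

end Pool.Agent.H778R3.Lin
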