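import Pool.Agent.H778R3.Lin.Coding

/-!
The family of polynomials and its computability.
-/

namespace Pool.Agent.H778R3.Lin

open Finset

section toolkit

variable {α : Type} [Primcodable α]

theorem prim_sum {g : α → ℕ → ℕ} {f : α → ℕ} (hg : Primrec fun p : α × ℕ => g p.1 p.2)
    (hf : Primrec f) : Primrec (fun a => ∑ i ∈ range (f a), g a i) := by
  have h : Primrec (fun a => (Nat.rec 0 (fun k r => r + g a k) (f a) : ℕ)) := by
    refine Primrec.nat_rec' (h := fun a (q : ℕ × ℕ) => q.2 + g a q.1) hf (Primrec.const 0) ?_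
    exact Primrec.nat_add.comp (Primrec.snd.comp Primrec.snd)
      (hg.comp (Primrec.pair Primrec.fst (Primrec.fst.comp Primrec.snd)))
  refine h.of_eq fun a => ?_
  induction f a with
  | zero => simp
  | succ k ih => rw [Finset.sum_range_succ, ← ih]

theorem prim_pow {f g : α → ℕ} (hf : Primrec f) (hg : Primrec g) :
    Primrec (fun a => f a ^ g a) := by
  have h : Primrec (fun a => (Nat.rec 1 (fun _ r => r * f a) (g a) : ℕ)) := by
    refine Primrec.nat_rec' (h := fun a (q : ℕ × ℕ) => q.2 * f a) hg (Primrec.const 1) ?_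
    exact Primrec.nat_mul.comp (Primrec.snd.comp Primrec.snd) (hf.comp Primrec.fst)
  refine h.of_eq fun a => ?_
  induction g a with
  | zero => simp
  | succ k ih => rw [pow_succ, ← ih]

theorem prim_dig {b x i : α → ℕ} (hb : Primrec b) (hx : Primrec x) (hi : Primrec i) :
    Primrec (fun a => dig (b a) (x a) (i a)) :=
  Primrec.nat_mod.comp (Primrec.nat_div.comp hx (prim_pow hb hi)) hb

theorem prim_ex {p : α → ℕ → Prop} {f : α → ℕ} (hp : PrimrecPred fun q : α × ℕ => p q.1 q.2)
    (hf : Primrec f) : PrimrecPred (fun a => ∃ x < f a, p a x) := by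
  have h : PrimrecRel (fun (x : ℕ) (a : α) => p a x) :=
    (hp.comp (Primrec.pair Primrec.snd Primrec.fst) :
      PrimrecPred fun q : ℕ × α => p q.2 q.1).primrecRel
  exact ((PrimrecRel.exists_mem_list h).comp (Primrec.list_range.comp hf) Primrec.id).of_eq
    (by simp)

theorem prim_all {p : α → ℕ → Prop} {f : α → ℕ} (hp : PrimrecPred fun q : α × ℕ => p q.1 q.2)
    (hf : Primrec f) : PrimrecPred (fun a => ∀ x < f a, p a x) := by
  have h : PrimrecRel (fun (x : ℕ) (a : α) => p a x) :=
    (hp.comp (Primrec.pair Primrec.snd Primrec.fst) :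
      PrimrecPred fun q : ℕ × α => p q.2 q.1).primrecRel
  exact ((PrimrecRel.forall_mem_list h).comp (Primrec.list_range.comp hf) Primrec.id).of_eq
    (by simp)

theorem prim_eq {f g : α → ℕ} (hf : Primrec f) (hg : Primrec g) :
    PrimrecPred (fun a => f a = g a) :=
  (Primrec.eq (α := ℕ)).comp hf hg

theorem prim_imp {p q : α → Prop} (hp : PrimrecPred p) (hq : PrimrecPred q) :
    PrimrecPred (fun a => p a → q a) := by
  refine (hp.not.or hq).of_eq fun a => ?_
  tauto

theorem prim_xs {n m W I : α → ℕ} (hn : Primrec n) (hm : Primrec m) (hW : Primrec W)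
    (hI : Primrec I) : Primrec (fun a => xs (n a) (m a) (W a) (I a)) := by
  unfold xs
  refine prim_sum ?_ hn
  refine Primrec.nat_mul.comp ?_ (prim_pow (Primrec.const 2) Primrec.snd)
  refine Primrec.nat_mod.comp ?_ (Primrec.const 2)
  refine prim_sum (α := α × ℕ)
    (g := fun p i => dig 2 (I p.1) i * dig 2 (dig (2 ^ n p.1) (W p.1) i) p.2) ?_
    (hm.comp Primrec.fst)
  have h1 : Primrec (fun q : (α × ℕ) × ℕ => q.1.1) := Primrec.fst.comp Primrec.fst
  refine Primrec.nat_mul.comp ?_ ?_
  · exact prim_dig (Primrec.const 2) (hI.comp h1) Primrec.snd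
  · exact prim_dig (Primrec.const 2)
      (prim_dig (prim_pow (Primrec.const 2) (hn.comp h1)) (hW.comp h1) Primrec.snd)
      (Primrec.snd.comp Primrec.fst)

theorem prim_prm {m s I : α → ℕ} (hm : Primrec m) (hs : Primrec s)
    (hI : Primrec I) : Primrec (fun a => prm (m a) (s a) (I a)) := by
  unfold prm
  refine prim_sum ?_ hm
  refine Primrec.nat_mul.comp ?_ ?_
  · exact prim_dig (Primrec.const 2) (hI.comp Primrec.fst) Primrec.snd
  · exact prim_pow (Primrec.const 2)
      (prim_dig (hm.comp Primrec.fst) (hs.comp Primrec.fst) Primrec.snd)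

theorem prim_isoP {n c a W : α → ℕ} (hn : Primrec n) (hc : Primrec c) (ha : Primrec a)
    (hW : Primrec W) : PrimrecPred (fun t => isoP (n t) (c t) (a t) (W t)) := by
  unfold isoP
  have hm : Primrec (fun t => (c t).unpair.1 + 1) :=
    Primrec.succ.comp (Primrec.fst.comp (Primrec.unpair.comp hc))
  have hb : Primrec (fun t => (c t).unpair.2) := Primrec.snd.comp (Primrec.unpair.comp hc)
  refine prim_ex ?_ (prim_pow hm hm)
  refine PrimrecPred.and ?_ ?_
  · refine prim_all (α := α × ℕ)
      (p := fun q i => ∀ j < i, dig ((c q.1).unpair.1 + 1) q.2 i ≠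
        dig ((c q.1).unpair.1 + 1) q.2 j) ?_ (hm.comp Primrec.fst)
    refine prim_all (α := (α × ℕ) × ℕ)
      (p := fun q j => dig ((c q.1.1).unpair.1 + 1) q.1.2 q.2 ≠
        dig ((c q.1.1).unpair.1 + 1) q.1.2 j) ?_ Primrec.snd
    have h1 : Primrec (fun q : ((α × ℕ) × ℕ) × ℕ => q.1.1.1) :=
      Primrec.fst.comp (Primrec.fst.comp Primrec.fst)
    have h2 : Primrec (fun q : ((α × ℕ) × ℕ) × ℕ => q.1.1.2) :=
      Primrec.snd.comp (Primrec.fst.comp Primrec.fst)
    have h3 : Primrec (fun q : ((α × ℕ) × ℕ) × ℕ => q.1.2) :=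
      Primrec.snd.comp Primrec.fst
    exact (prim_eq (prim_dig (hm.comp h1) h2 h3) (prim_dig (hm.comp h1) h2 Primrec.snd)).not
  · refine prim_all (α := α × ℕ)
      (p := fun q I => I ≠ 0 → dig 2 (a q.1) (xs (n q.1) ((c q.1).unpair.1 + 1) (W q.1) I) =
        dig 2 (c q.1).unpair.2 (prm ((c q.1).unpair.1 + 1) q.2 I)) ?_
      (prim_pow (Primrec.const 2) (hm.comp Primrec.fst))
    have h1 : Primrec (fun q : (α × ℕ) × ℕ => q.1.1) := Primrec.fst.comp Primrec.fst
    have h2 : Primrec (fun q : (α × ℕ) × ℕ => q.1.2) := Primrec.snd.comp Primrec.fst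
    refine prim_imp (prim_eq Primrec.snd (Primrec.const 0)).not ?_
    refine prim_eq ?_ ?_
    · exact prim_dig (Primrec.const 2) (ha.comp h1)
        (prim_xs (hn.comp h1) (hm.comp h1) (hW.comp h1) Primrec.snd)
    · exact prim_dig (Primrec.const 2) (hb.comp h1)
        (prim_prm (hm.comp h1) h2 Primrec.snd)

theorem prim_cnt {n M c a : α → ℕ} (hn : Primrec n) (hM : Primrec M) (hc : Primrec c)
    (ha : Primrec a) : Primrec (fun t => cnt (n t) (M t) (c t) (a t)) := by
  unfold cnt
  refine prim_sum ?_ (prim_pow (prim_pow (Primrec.const 2) hn) hM)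
  refine Primrec.ite ?_ (Primrec.const 1) (Primrec.const 0)
  exact prim_isoP (hn.comp Primrec.fst) (hc.comp Primrec.fst) (ha.comp Primrec.fst) Primrec.snd

end toolkit

/-- square of the difference of two natural numbers -/
def sqd (a b : ℕ) : ℕ := ((a - b) + (b - a)) ^ 2

theorem sqd_cast (a b : ℕ) : (sqd a b : ℝ) = ((a : ℝ) - b) ^ 2 := by
  unfold sqd
  rcases le_total a b with h | h
  · rw [Nat.sub_eq_zero_of_le h]
    push_cast [Nat.cast_sub h]
    ring
  · rw [Nat.sub_eq_zero_of_le h]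
    push_cast [Nat.cast_sub h]
    ring

/-- minimum of `f 0, ..., f k` -/
def minTo (f : ℕ → ℕ) : ℕ → ℕ
  | 0 => f 0
  | k + 1 => min (minTo f k) (f (k + 1))

theorem minTo_le (f : ℕ → ℕ) (k i : ℕ) (h : i ≤ k) : minTo f k ≤ f i := by
  induction k with
  | zero =>
    have : i = 0 := by omega
    subst this
    exact le_rfl
  | succ k ih =>
    rcases Nat.lt_or_ge i (k + 1) with h' | h'
    · exact (min_le_left _ _).trans (ih (by omega))
    · have : i = k + 1 := by omega
      subst this
      exact min_le_right _ _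

theorem exists_minTo (f : ℕ → ℕ) (k : ℕ) : ∃ i ≤ k, minTo f k = f i := by
  induction k with
  | zero => exact ⟨0, le_rfl, rfl⟩
  | succ k ih =>
    obtain ⟨i, hi, h⟩ := ih
    rcases min_choice (minTo f k) (f (k + 1)) with h' | h'
    · exact ⟨i, by omega, by rw [minTo, h', h]⟩
    · exact ⟨k + 1, le_rfl, by rw [minTo, h']⟩

/-- number of entries of the tuples used for a list of codes -/
def siz (l : List (ℕ × ℕ)) : ℕ := l.foldr (fun p r => (p.1.unpair.1 + 1) + r) 0

/-- squared distance, multiplied by the square of the number of tuples, of the point given by the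
set with code `a` and the point given by the numerators in the list `l` -/
def dst (n : ℕ) (l : List (ℕ × ℕ)) (a : ℕ) : ℕ :=
  l.foldr (fun p r => sqd (cnt n (siz l) p.1 a) p.2 + r) 0

/-- the minimal squared distance -/
def mn (n : ℕ) (l : List (ℕ × ℕ)) : ℕ := minTo (dst n l) (2 ^ 2 ^ n)

/-- the code of the polynomial
`2 * 2^n * ∑_j (D x_j - a_j)^2 + 2 k 4^M D^2 - 2^n R` -/
def FF (n : ℕ) (l : List (ℕ × ℕ)) : PolyCode :=
  ((2 * l.length * 4 ^ siz l * ((2 ^ n) ^ siz l) ^ 2, 2 ^ n * mn n l, 0), []) ::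
    l.flatMap (fun p =>
      [((2 * 2 ^ n * ((2 ^ n) ^ siz l) ^ 2, 0, 0), [p.1, p.1]),
       ((0, 4 * 2 ^ n * (2 ^ n) ^ siz l * p.2, 0), [p.1]),
       ((2 * 2 ^ n * p.2 ^ 2, 0, 0), [])])

/-- the family as a sequence -/
def FN (k : ℕ) : PolyCode :=
  match (Encodable.decode k : Option (ℕ × List (ℕ × ℕ))) with
  | none => []
  | some q => FF q.1 q.2

section

variable {α : Type} [Primcodable α]

theorem prim_siz {l : α → List (ℕ × ℕ)} (hl : Primrec l) : Primrec (fun t => siz (l t)) := by
  unfold siz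
  refine Primrec.list_foldr (h := fun _ (q : (ℕ × ℕ) × ℕ) => (q.1.1.unpair.1 + 1) + q.2) hl
    (Primrec.const 0) ?_
  refine Primrec.nat_add.comp ?_ (Primrec.snd.comp Primrec.snd)
  exact Primrec.succ.comp (Primrec.fst.comp (Primrec.unpair.comp
    (Primrec.fst.comp (Primrec.fst.comp Primrec.snd))))

theorem prim_dst {n : α → ℕ} {l : α → List (ℕ × ℕ)} {a : α → ℕ} (hn : Primrec n)
    (hl : Primrec l) (ha : Primrec a) : Primrec (fun t => dst (n t) (l t) (a t)) := by
  unfold dst
  refine Primrec.list_foldr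
    (h := fun t (q : (ℕ × ℕ) × ℕ) => sqd (cnt (n t) (siz (l t)) q.1.1 (a t)) q.1.2 + q.2) hl
    (Primrec.const 0) ?_
  have hsqd : Primrec₂ sqd := by
    unfold sqd
    exact prim_pow (Primrec.nat_add.comp (Primrec.nat_sub.comp Primrec.fst Primrec.snd)
      (Primrec.nat_sub.comp Primrec.snd Primrec.fst)) (Primrec.const 2)
  refine Primrec.nat_add.comp ?_ (Primrec.snd.comp Primrec.snd)
  refine hsqd.comp ?_ (Primrec.snd.comp (Primrec.fst.comp Primrec.snd))
  exact prim_cnt (hn.comp Primrec.fst) (prim_siz (hl.comp Primrec.fst))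
    (Primrec.fst.comp (Primrec.fst.comp Primrec.snd)) (ha.comp Primrec.fst)

theorem prim_mn {n : α → ℕ} {l : α → List (ℕ × ℕ)} (hn : Primrec n) (hl : Primrec l) :
    Primrec (fun t => mn (n t) (l t)) := by
  unfold mn
  have h : Primrec (fun t => (Nat.rec (dst (n t) (l t) 0)
      (fun k r => min r (dst (n t) (l t) (k + 1))) (2 ^ 2 ^ n t) : ℕ)) := by
    refine Primrec.nat_rec'
      (h := fun t (q : ℕ × ℕ) => min q.2 (dst (n t) (l t) (q.1 + 1)))
      (prim_pow (Primrec.const 2) (prim_pow (Primrec.const 2) hn))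
      (prim_dst hn hl (Primrec.const 0)) ?_
    refine Primrec.nat_min.comp (Primrec.snd.comp Primrec.snd) ?_
    exact prim_dst (hn.comp Primrec.fst) (hl.comp Primrec.fst)
      (Primrec.succ.comp (Primrec.fst.comp Primrec.snd))
  refine h.of_eq fun t => ?_
  induction 2 ^ 2 ^ n t with
  | zero => rfl
  | succ k ih => rw [minTo, ← ih]

theorem prim_FF {n : α → ℕ} {l : α → List (ℕ × ℕ)} (hn : Primrec n) (hl : Primrec l) :
    Primrec (fun t => FF (n t) (l t)) := by
  unfold FF
  have h2n : Primrec (fun t => 2 ^ n t) := prim_pow (Primrec.const 2) hn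
  have hs : Primrec (fun t => siz (l t)) := prim_siz hl
  have hD : Primrec (fun t => (2 ^ n t) ^ siz (l t)) := prim_pow h2n hs
  have hD2 : Primrec (fun t => ((2 ^ n t) ^ siz (l t)) ^ 2) := prim_pow hD (Primrec.const 2)
  have hlen : Primrec (fun t => (l t).length) := Primrec.list_length.comp hl
  refine Primrec.list_cons.comp ?_ ?_
  · refine Primrec.pair (Primrec.pair ?_ (Primrec.pair ?_ (Primrec.const 0)))
      (Primrec.const [])
    · exact Primrec.nat_mul.comp (Primrec.nat_mul.comp
        (Primrec.nat_mul.comp (Primrec.const 2) hlen) (prim_pow (Primrec.const 4) hs)) hD2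
    · exact Primrec.nat_mul.comp h2n (prim_mn hn hl)
  · refine Primrec.list_flatMap hl ?_
    have f2n := h2n.comp (Primrec.fst (α := α) (β := ℕ × ℕ))
    have fD := hD.comp (Primrec.fst (α := α) (β := ℕ × ℕ))
    have fD2 := hD2.comp (Primrec.fst (α := α) (β := ℕ × ℕ))
    have fc : Primrec (fun p : α × (ℕ × ℕ) => p.2.1) := Primrec.fst.comp Primrec.snd
    have fa : Primrec (fun p : α × (ℕ × ℕ) => p.2.2) := Primrec.snd.comp Primrec.snd
    have c2 : Primrec (fun _ : α × (ℕ × ℕ) => 2) := Primrec.const 2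
    have c4 : Primrec (fun _ : α × (ℕ × ℕ) => 4) := Primrec.const 4
    have c0 : Primrec (fun _ : α × (ℕ × ℕ) => 0) := Primrec.const 0
    have cnil : Primrec (fun _ : α × (ℕ × ℕ) => ([] : List ℕ)) := Primrec.const []
    have cnil' : Primrec (fun _ : α × (ℕ × ℕ) => ([] : PolyCode)) := Primrec.const []
    refine Primrec.list_cons.comp (Primrec.pair (Primrec.pair ?_ (Primrec.pair c0 c0)) ?_) ?_
    · exact Primrec.nat_mul.comp (Primrec.nat_mul.comp c2 f2n) fD2
    · exact Primrec.list_cons.comp fc (Primrec.list_cons.comp fc cnil)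
    refine Primrec.list_cons.comp (Primrec.pair (Primrec.pair c0 (Primrec.pair ?_ c0)) ?_) ?_
    · exact Primrec.nat_mul.comp (Primrec.nat_mul.comp (Primrec.nat_mul.comp c4 f2n) fD) fa
    · exact Primrec.list_cons.comp fc cnil
    refine Primrec.list_cons.comp (Primrec.pair (Primrec.pair ?_ (Primrec.pair c0 c0)) ?_) ?_
    · exact Primrec.nat_mul.comp (Primrec.nat_mul.comp c2 f2n) (prim_pow fa c2)
    · exact cnil
    · exact cnil'

end

theorem prim_FN : Primrec FN := by
  have h := Primrec.option_casesOn (α := ℕ) (β := ℕ × List (ℕ × ℕ)) (σ := PolyCode)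
    (o := fun k => (Encodable.decode k : Option (ℕ × List (ℕ × ℕ))))
    (f := fun _ => []) (g := fun _ q => FF q.1 q.2) Primrec.decode (Primrec.const [])
    (prim_FF (Primrec.fst.comp Primrec.snd) (Primrec.snd.comp Primrec.snd))
  refine h.of_eq fun k => ?_
  unfold FN
  cases (Encodable.decode k : Option (ℕ × List (ℕ × ℕ))) <;> rfl

theorem computable_FN : Computable FN := prim_FN.to_comp

end Pool.Agent.H778R3.Lin
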