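import Pool.Agent.H778R3.Lin.Prim

/-!
The polynomials of the family are nonnegative at the points given by averages.
-/

namespace Pool.Agent.H778R3.Lin

open Finset

/-- value of the polynomial coded by `FF n l` at the point with coordinates `z` -/
noncomputable def GG (n : ℕ) (l : List (ℕ × ℕ)) (z : ℕ → ℝ) : ℝ :=
  (2 * (l.length : ℝ) * 4 ^ siz l * (((2 : ℝ) ^ n) ^ siz l) ^ 2 - 2 ^ n * (mn n l : ℝ)) +
    (l.map (fun p => 2 * 2 ^ n * (((2 : ℝ) ^ n) ^ siz l * z p.1 - p.2) ^ 2)).sum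

theorem evalAt_polyOfCode (x : ModelClass → Set.Icc (0 : ℝ) 1) (L : PolyCode) :
    evalAt x (polyOfCode L) = (L.map (fun t =>
      (((t.1.1 : ℝ) - (t.1.2.1 : ℝ)) / ((t.1.2.2 : ℝ) + 1)) *
        (t.2.map (fun c => (x (classOfCode c) : ℝ))).prod)).sum := by
  unfold evalAt polyOfCode
  rw [map_list_sum, List.map_map]
  congr 1
  apply List.map_congr_left
  intro t _
  simp only [Function.comp, map_mul, MvPolynomial.aeval_C, map_list_prod, List.map_map]
  congr 1
  · simp
  · congr 1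
    apply List.map_congr_left
    intro c _
    simp

theorem evalAt_FF (x : ModelClass → Set.Icc (0 : ℝ) 1) (n : ℕ) (l : List (ℕ × ℕ)) :
    evalAt x (polyOfCode (FF n l)) = GG n l (fun c => (x (classOfCode c) : ℝ)) := by
  rw [evalAt_polyOfCode]
  unfold FF GG
  rw [List.map_cons, List.sum_cons]
  congr 1
  · simp
  · rw [List.map_flatMap]
    generalize siz l = M
    induction l with
    | nil => simp
    | cons p l ih =>
      rw [List.flatMap_cons, List.sum_append, ih]
      conv_rhs => rw [List.map_cons, List.sum_cons]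
      congr 1
      simp
      ring

theorem siz_ge (l : List (ℕ × ℕ)) (p : ℕ × ℕ) (hp : p ∈ l) : p.1.unpair.1 + 1 ≤ siz l := by
  unfold siz
  induction l with
  | nil => simp at hp
  | cons q l ih =>
    rw [List.foldr_cons]
    rcases List.mem_cons.mp hp with h | h
    · subst h; omega
    · have := ih h
      omega

theorem dst_cast (n : ℕ) (l : List (ℕ × ℕ)) (a : ℕ) :
    (dst n l a : ℝ) = (l.map (fun p => ((cnt n (siz l) p.1 a : ℝ) - p.2) ^ 2)).sum := by
  unfold dst
  generalize siz l = M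
  induction l with
  | nil => simp
  | cons q l ih =>
    rw [List.foldr_cons, List.map_cons, List.sum_cons, ← ih]
    push_cast
    rw [sqd_cast]

theorem list_sum_fin (l : List (ℕ × ℕ)) (f : ℕ × ℕ → ℝ) :
    (l.map f).sum = ∑ j : Fin l.length, f (l.get j) := by
  rw [← List.sum_ofFn]
  congr 1
  apply List.ext_get
  · simp
  · intro i h1 h2
    simp

/-- average of the indicator over longer tuples -/
theorem sum_ind_res {N M : ℕ} (K : FinModel) (B : Set (Fin N → ZMod 2)) (h : K.1 + 1 ≤ M) :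
    ∑ u : Fin M → Fin N → ZMod 2, ind K.2 B (res (K.1 + 1) u) =
      ((2 : ℝ) ^ N) ^ M * avg K.2 B := by
  have := sum_comp_surj (resHom N M (K.1 + 1)) (res_surj h) (ind K.2 B)
  have hc1 : (Fintype.card (Fin (K.1 + 1) → Fin N → ZMod 2) : ℝ) =
      ((2 : ℝ) ^ N) ^ (K.1 + 1) := by
    simp [ZMod.card]
  have hc2 : (Fintype.card (Fin M → Fin N → ZMod 2) : ℝ) = ((2 : ℝ) ^ N) ^ M := by
    simp [ZMod.card]
  rw [hc1, hc2] at this
  unfold avg
  have hpos : (0 : ℝ) < ((2 : ℝ) ^ N) ^ (K.1 + 1) := by positivity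
  rw [mul_div_assoc', eq_div_iff hpos.ne', ← this, mul_comm]
  rfl

theorem avg_nonneg {n m : ℕ} (K : LModel (Fin m)) (A : Set (Fin n → ZMod 2)) : 0 ≤ avg K A := by
  unfold avg
  exact div_nonneg (Finset.sum_nonneg fun w _ => ind_nonneg K A w) (by positivity)

theorem avg_le_one {n m : ℕ} (K : LModel (Fin m)) (A : Set (Fin n → ZMod 2)) : avg K A ≤ 1 := by
  unfold avg
  apply div_le_one_of_le₀ _ (by positivity)
  calc _ ≤ ∑ _w : Fin m → Fin n → ZMod 2, (1 : ℝ) :=
        Finset.sum_le_sum fun w _ => ind_le_one K A w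
    _ = _ := by simp [ZMod.card]

/-- pull-back of a set of vectors -/
def pullSet {n N : ℕ} (B : Set (Fin N → ZMod 2)) (L : Fin n → Fin N → ZMod 2) :
    Set (Fin n → ZMod 2) :=
  {v | ∑ j, v j • L j ∈ B}

theorem res_lc {n N M m : ℕ} (w : Fin M → Fin n → ZMod 2) (L : Fin n → Fin N → ZMod 2) :
    res m (lc w L) = lc (res m w) L := by
  funext i
  unfold res lc
  by_cases h : (i : ℕ) < M
  · simp only [h, dite_true]
  · simp [h]

theorem ind_lc {n N m : ℕ} (K : LModel (Fin m)) (B : Set (Fin N → ZMod 2))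
    (L : Fin n → Fin N → ZMod 2) (w : Fin m → Fin n → ZMod 2) :
    ind K B (lc w L) = ind K (pullSet B L) w := by
  have : tupModel B (lc w L) = tupModel (pullSet B L) w := by
    unfold tupModel
    congr 1
    ext s
    simp only [Set.mem_ofPred_eq, pullSet]
    have h : ∑ i ∈ s, lc w L i = ∑ j, (∑ i ∈ s, w i) j • L j := by
      unfold lc
      rw [Finset.sum_comm]
      refine Finset.sum_congr rfl fun j _ => ?_
      rw [Finset.sum_apply, Finset.sum_smul]
    rw [h]
  unfold ind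
  rw [this]

/-- The inequalities hold for the averages of every subset of every `F_2^N`. -/
theorem GG_avg_nonneg (n : ℕ) (l : List (ℕ × ℕ)) {N : ℕ} (B : Set (Fin N → ZMod 2)) :
    0 ≤ GG n l (fun c => avg (codeModel c).2 B) := by
  set M := siz l with hM
  set D : ℝ := ((2 : ℝ) ^ n) ^ M with hD
  set z : ℕ → ℝ := fun c => avg (codeModel c).2 B with hz
  have hm : ∀ j : Fin l.length, (codeModel (l.get j).1).1 + 1 ≤ M := by
    intro j
    exact siz_ge l (l.get j) (List.get_mem l j)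
  -- the functions
  let g : Fin l.length → (Fin M → Fin N → ZMod 2) → ℝ := fun j u =>
    ind (codeModel (l.get j).1).2 B (res ((codeModel (l.get j).1).1 + 1) u) - z (l.get j).1
  have hg : ∀ j u, |g j u| ≤ 1 := by
    intro j u
    have h1 := ind_nonneg (codeModel (l.get j).1).2 B (res ((codeModel (l.get j).1).1 + 1) u)
    have h2 := ind_le_one (codeModel (l.get j).1).2 B (res ((codeModel (l.get j).1).1 + 1) u)
    have h3 : 0 ≤ z (l.get j).1 := avg_nonneg _ _
    have h4 : z (l.get j).1 ≤ 1 := avg_le_one _ _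
    rw [abs_le]
    constructor <;> simp only [g] <;> linarith
  have hsum : ∀ j, ∑ u, g j u = 0 := by
    intro j
    simp only [g]
    rw [Finset.sum_sub_distrib, sum_ind_res _ B (hm j), Finset.sum_const, nsmul_eq_mul,
      Finset.card_univ]
    have hc2 : (Fintype.card (Fin M → Fin N → ZMod 2) : ℝ) = ((2 : ℝ) ^ N) ^ M := by
      simp [ZMod.card]
    rw [hc2]
    simp [hz]
  obtain ⟨L, hL⟩ := exists_sample (n := n) g hg hsum
  obtain ⟨a, ha, haA⟩ := setOf_surj (pullSet B L)
  have hgw : ∀ j, ∑ w : Fin M → Fin n → ZMod 2, g j (lc w L) =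
      (cnt n M (l.get j).1 a : ℝ) - D * z (l.get j).1 := by
    intro j
    simp only [g]
    rw [Finset.sum_sub_distrib, Finset.sum_const, nsmul_eq_mul, Finset.card_univ]
    have hc2 : (Fintype.card (Fin M → Fin n → ZMod 2) : ℝ) = D := by
      simp [ZMod.card, hD]
    rw [hc2, cnt_eq]
    congr 1
    refine Finset.sum_congr rfl fun w _ => ?_
    rw [res_lc, ind_lc, haA]
  simp only [hgw] at hL
  have hcard : (Fintype.card (Fin l.length) : ℝ) = (l.length : ℝ) := by simp
  rw [hcard] at hL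
  have hR : (mn n l : ℝ) ≤ (dst n l a : ℝ) := by
    exact_mod_cast minTo_le (dst n l) _ a ha
  rw [dst_cast, list_sum_fin] at hR
  unfold GG
  rw [list_sum_fin]
  have hpt : ∀ j : Fin l.length, ((cnt n M (l.get j).1 a : ℝ) - ((l.get j).2 : ℝ)) ^ 2 ≤
      2 * ((cnt n M (l.get j).1 a : ℝ) - D * z (l.get j).1) ^ 2 +
        2 * (D * z (l.get j).1 - ((l.get j).2 : ℝ)) ^ 2 := by
    intro j
    nlinarith [sq_nonneg (((cnt n M (l.get j).1 a : ℝ) - D * z (l.get j).1) -
      (D * z (l.get j).1 - ((l.get j).2 : ℝ)))]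
  have hsum2 := Finset.sum_le_sum fun (j : Fin l.length) (_ : j ∈ univ) => hpt j
  rw [Finset.sum_add_distrib, ← Finset.mul_sum, ← Finset.mul_sum] at hsum2
  have h2n : (0 : ℝ) < 2 ^ n := by positivity
  have hfin := mul_le_mul_of_nonneg_left (hR.trans hsum2) h2n.le
  rw [← Finset.mul_sum]
  have e1 : (2 : ℝ) ^ n * (2 * ∑ j : Fin l.length,
        ((cnt n M (l.get j).1 a : ℝ) - D * z (l.get j).1) ^ 2 +
      2 * ∑ j : Fin l.length, (D * z (l.get j).1 - ((l.get j).2 : ℝ)) ^ 2) =
      2 * (2 ^ n * ∑ j : Fin l.length,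
        ((cnt n M (l.get j).1 a : ℝ) - D * z (l.get j).1) ^ 2) +
      2 * 2 ^ n * ∑ j : Fin l.length, (D * z (l.get j).1 - ((l.get j).2 : ℝ)) ^ 2 := by ring
  rw [e1] at hfin
  have e2 : 2 * (l.length : ℝ) * 4 ^ M * D ^ 2 = 2 * ((l.length : ℝ) * (4 ^ M * D ^ 2)) := by
    ring
  rw [e2]
  linarith

end Pool.Agent.H778R3.Lin
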