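import Pool.Agent.H778R3.Lin.Sound

/-!
Lineons are exactly the solutions of the inequalities.
-/

namespace Pool.Agent.H778R3.Lin

open Finset Filter Topology

/-- points coming from different dimensions are different -/
theorem densityPoint_ne {N N' : ℕ} (h : N < N') (A : Set (Fin N → ZMod 2))
    (A' : Set (Fin N' → ZMod 2)) :
    densityPoint (linModel A) ≠ densityPoint (linModel A') := by
  classical
  intro heq
  have hcard : Fintype.card (Fin N' → ZMod 2) = 2 ^ N' := by simp [ZMod.card]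
  have hcard0 : Fintype.card (Fin N → ZMod 2) = 2 ^ N := by simp [ZMod.card]
  have hpos : 0 < 2 ^ N' := by positivity
  obtain ⟨m, hm⟩ : ∃ m, m + 1 = 2 ^ N' := ⟨2 ^ N' - 1, by omega⟩
  have hc : Fintype.card (Fin (m + 1)) = Fintype.card (Fin N' → ZMod 2) := by
    rw [hcard, Fintype.card_fin, hm]
  let e : Fin (m + 1) ≃ (Fin N' → ZMod 2) := Fintype.equivOfCardEq hc
  let K : FinModel := ⟨m, (linModel A').pull e.toEmbedding⟩
  have h1 := congrArg Subtype.val (congrFun heq (Quotient.mk _ K))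
  change density K (linModel A) = density K (linModel A') at h1
  have h2 : density K (linModel A) = 0 := by
    unfold density
    rw [hcard0]
    have : (2 ^ N).choose (K.1 + 1) = 0 := by
      apply Nat.choose_eq_zero_of_lt
      change 2 ^ N < m + 1
      rw [hm]
      exact Nat.pow_lt_pow_right (by norm_num) h
    rw [this]
    simp
  have h3 : 0 < density K (linModel A') := by
    unfold density
    apply div_pos
    · rw [Nat.cast_pos, Finset.card_pos]
      refine ⟨univ, ?_⟩
      rw [mem_filter, mem_powersetCard]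
      refine ⟨⟨subset_univ _, ?_⟩, ?_⟩
      · rw [Finset.card_univ, hcard]
        exact hm.symm
      · apply pull_iso_induce
        ext x
        simp only [Finset.mem_map, Finset.mem_univ, true_and, iff_true]
        exact ⟨e.symm x, by simp⟩
    · rw [hcard]
      change (0 : ℝ) < ((2 ^ N').choose (m + 1) : ℕ)
      rw [hm, Nat.choose_self]
      norm_num
  rw [h1] at h2
  exact h3.ne' h2

/-- A point is a lineon iff it is approximated by points coming from arbitrarily large
dimensions. -/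
theorem isLineon_iff (x : ModelClass → Set.Icc (0 : ℝ) 1) :
    IsLineon x ↔ ∀ U ∈ 𝓝 x, ∀ N0 : ℕ, ∃ N ≥ N0, ∃ A : Set (Fin N → ZMod 2),
      densityPoint (linModel A) ∈ U := by
  classical
  unfold IsLineon
  rw [accPt_iff_nhds]
  constructor
  · intro h U hU N0
    let Bad : Set (ModelClass → Set.Icc (0 : ℝ) 1) :=
      ⋃ N : Fin N0, Set.range (fun A : Set (Fin N → ZMod 2) => densityPoint (linModel A))
    have hfin : Bad.Finite := Set.finite_iUnion fun N => Set.finite_range _
    have hU' : U ∩ (Bad \ {x})ᶜ ∈ 𝓝 x := by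
      refine Filter.inter_mem hU ?_
      exact (hfin.subset Set.sdiff_subset).isClosed.isOpen_compl.mem_nhds (by simp)
    obtain ⟨y, ⟨⟨hyU, hyB⟩, n, _, A, hA⟩, hyx⟩ := h _ hU'
    refine ⟨n, ?_, A, hA ▸ hyU⟩
    by_contra hn
    push Not at hn
    apply hyB
    refine ⟨?_, hyx⟩
    rw [Set.mem_iUnion]
    exact ⟨⟨n, hn⟩, A, hA.symm⟩
  · intro h U hU
    obtain ⟨N, hN, A, hA⟩ := h U hU 1
    by_cases hx : densityPoint (linModel A) = x
    · obtain ⟨N', hN', A', hA'⟩ := h U hU (N + 1)
      refine ⟨densityPoint (linModel A'), ⟨hA', N', by omega, A', rfl⟩, ?_⟩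
      rw [← hx]
      exact (densityPoint_ne (by omega) A A').symm
    · exact ⟨densityPoint (linModel A), ⟨hA, N, hN, A, rfl⟩, hx⟩

theorem tendsto_const_div_two_pow (C : ℝ) {ι : Type*} {F : Filter ι} {f : ι → ℕ}
    (hf : Tendsto f F atTop) : Tendsto (fun i => C / 2 ^ f i) F (𝓝 0) := by
  have h : Tendsto (fun k : ℕ => C / (2 : ℝ) ^ k) atTop (𝓝 0) := by
    have := (tendsto_pow_atTop_atTop_of_one_lt (one_lt_two : (1 : ℝ) < 2)).const_div_atTop C
    exact this
  exact h.comp hf

/-- the inequalities hold for lineons -/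
theorem sound (x : ModelClass → Set.Icc (0 : ℝ) 1) (hx : IsLineon x) (n : ℕ)
    (l : List (ℕ × ℕ)) : 0 ≤ evalAt x (polyOfCode (FF n l)) := by
  rw [evalAt_FF]
  rw [isLineon_iff] at hx
  let ι := Σ N : ℕ, Set (Fin N → ZMod 2)
  let φ : ι → (ModelClass → Set.Icc (0 : ℝ) 1) := fun p => densityPoint (linModel p.2)
  let F : Filter ι := comap Sigma.fst atTop ⊓ comap φ (𝓝 x)
  have hne : F.NeBot := by
    rw [Filter.neBot_iff]
    intro hbot
    have hmem : (∅ : Set ι) ∈ F := by rw [hbot]; exact Filter.mem_bot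
    rw [Filter.mem_inf_iff] at hmem
    obtain ⟨s, hs, t, ht, hst⟩ := hmem
    obtain ⟨s', hs', hss⟩ := hs
    obtain ⟨t', ht', htt⟩ := ht
    obtain ⟨N0, hN0⟩ := Filter.mem_atTop_sets.mp hs'
    obtain ⟨N, hN, A, hA⟩ := hx t' ht' N0
    have h1 : (⟨N, A⟩ : ι) ∈ s := hss (hN0 N hN)
    have h2 : (⟨N, A⟩ : ι) ∈ t := htt hA
    have : (⟨N, A⟩ : ι) ∈ s ∩ t := ⟨h1, h2⟩
    rw [← hst] at this
    exact this
  have hfst : Tendsto (Sigma.fst : ι → ℕ) F atTop :=
    tendsto_comap.mono_left inf_le_left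
  have hφ : Tendsto φ F (𝓝 x) := tendsto_comap.mono_left inf_le_right
  have hz : ∀ c : ℕ, Tendsto (fun p : ι => avg (codeModel c).2 p.2) F
      (𝓝 (x (classOfCode c) : ℝ)) := by
    intro c
    have h1 : Tendsto (fun p : ι => ((φ p (classOfCode c) : Set.Icc (0 : ℝ) 1) : ℝ)) F
        (𝓝 (x (classOfCode c) : ℝ)) :=
      (continuous_subtype_val.tendsto _).comp ((tendsto_pi_nhds.mp hφ) (classOfCode c))
    have h2 : Tendsto (fun p : ι => ((φ p (classOfCode c) : Set.Icc (0 : ℝ) 1) : ℝ) -
        avg (codeModel c).2 p.2) F (𝓝 0) := by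
      apply squeeze_zero_norm' (a := fun p : ι =>
        (((codeModel c).1 : ℝ) + 1) ^ 2 / 2 ^ p.1) _ (tendsto_const_div_two_pow _ hfst)
      have hev : ∀ᶠ p : ι in F, (codeModel c).1 + 1 ≤ p.1 :=
        hfst.eventually (eventually_ge_atTop _)
      filter_upwards [hev] with p hp
      rw [Real.norm_eq_abs]
      exact density_sub_avg (codeModel c) p.2 (hp.trans (Nat.lt_two_pow_self).le)
    have h3 := h1.sub h2
    simpa using h3
  have hG : Tendsto (fun p : ι => GG n l (fun c => avg (codeModel c).2 p.2)) F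
      (𝓝 (GG n l (fun c => (x (classOfCode c) : ℝ)))) := by
    unfold GG
    simp only [list_sum_fin]
    refine Tendsto.add tendsto_const_nhds ?_
    refine tendsto_finsetSum _ fun j _ => ?_
    refine Tendsto.mul tendsto_const_nhds ?_
    refine Tendsto.pow ?_ 2
    refine Tendsto.sub ?_ tendsto_const_nhds
    exact Tendsto.mul tendsto_const_nhds (hz _)
  exact ge_of_tendsto' hG fun p => GG_avg_nonneg n l p.2

/-- the inequalities force a point to be a lineon -/
theorem complete (x : ModelClass → Set.Icc (0 : ℝ) 1)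
    (hx : ∀ n l, 0 ≤ evalAt x (polyOfCode (FF n l))) : IsLineon x := by
  classical
  rw [isLineon_iff]
  by_contra hcon
  push Not at hcon
  obtain ⟨U, hU, N0, hN0⟩ := hcon
  -- a basic neighbourhood
  rw [nhds_pi, Filter.mem_pi] at hU
  obtain ⟨I, hI, t, ht, htU⟩ := hU
  have hδ : ∃ δ > 0, ∀ c ∈ I, ∀ y : Set.Icc (0 : ℝ) 1, |(y : ℝ) - x c| < δ → y ∈ t c := by
    have h1 : ∀ c : ModelClass, ∃ δ > 0, ∀ y : Set.Icc (0 : ℝ) 1, |(y : ℝ) - x c| < δ →
        y ∈ t c := by
      intro c
      obtain ⟨δ, hδ, hb⟩ := Metric.mem_nhds_iff.mp (ht c)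
      refine ⟨δ, hδ, fun y hy => hb ?_⟩
      rw [Metric.mem_ball, Subtype.dist_eq, Real.dist_eq]
      exact hy
    choose δ hδpos hδ using h1
    lift I to Finset ModelClass using hI
    by_cases hne : I.Nonempty
    · refine ⟨I.inf' hne δ, ?_, ?_⟩
      · rw [gt_iff_lt, Finset.lt_inf'_iff]
        exact fun c _ => hδpos c
      · intro c hc y hy
        exact hδ c y (hy.trans_le (Finset.inf'_le _ hc))
    · refine ⟨1, one_pos, ?_⟩
      intro c hc
      rw [Finset.not_nonempty_iff_eq_empty] at hne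
      subst hne
      simp at hc
  obtain ⟨δ, hδpos, hδ⟩ := hδ
  -- codes of the coordinates
  choose code hcode using classOfCode_surjective
  lift I to Finset ModelClass using hI
  -- the parameters
  let l0 : List ℕ := I.toList.map code
  have hfar : ∀ N ≥ N0, ∀ A : Set (Fin N → ZMod 2), ∃ c ∈ l0,
      δ ≤ |(densityPoint (linModel A) (classOfCode c) : ℝ) - x (classOfCode c)| := by
    intro N hN A
    by_contra hc
    push Not at hc
    apply hN0 N hN A
    apply htU
    intro c hcI
    apply hδ c hcI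
    have hmem : code c ∈ l0 := by
      simp only [l0, List.mem_map, Finset.mem_toList]
      exact ⟨c, hcI, rfl⟩
    have := hc (code c) hmem
    rwa [hcode] at this
  -- the numerators and the list for a given `n`
  let M0 : ℕ := (l0.map (fun c => c.unpair.1 + 1)).sum
  let D : ℕ → ℝ := fun n => ((2 : ℝ) ^ n) ^ M0
  let num : ℕ → ℕ → ℕ := fun n c => ⌊D n * x (classOfCode c)⌋₊
  let L : ℕ → List (ℕ × ℕ) := fun n => l0.map (fun c => (c, num n c))
  have hsiz : ∀ n, siz (L n) = M0 := by
    intro n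
    simp only [L, siz, M0]
    induction l0 with
    | nil => simp
    | cons c l ih => simp only [List.map_cons, List.foldr_cons, List.sum_cons, ih]
  have hlen : ∀ n, (L n).length = l0.length := by
    intro n; simp [L]
  set k : ℝ := (l0.length : ℝ) with hk
  -- the list is nonempty
  have hM0 : 1 ≤ M0 := by
    obtain ⟨c, hc, _⟩ := hfar N0 le_rfl ∅
    have h1 : c.unpair.1 + 1 ≤ M0 := by
      simp only [M0]
      exact List.single_le_sum (by simp) _ (List.mem_map_of_mem hc)
    omega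
  -- the basic inequality for every large `n`
  have hkey : ∀ n, N0 ≤ n → M0 ≤ n → (M0 : ℝ) ^ 2 / 2 ^ n + 1 / 2 ^ n ≤ δ / 2 →
      2 ^ n * ((D n) ^ 2 * (δ / 2) ^ 2) ≤ 2 * k * 4 ^ M0 * (D n) ^ 2 + 2 * 2 ^ n * k := by
    intro n hn hnM hsmall
    have hD1 : (2 : ℝ) ^ n ≤ D n := by
      simp only [D]
      have h2 : (1 : ℝ) ≤ 2 ^ n := one_le_pow₀ (by norm_num)
      calc (2 : ℝ) ^ n = ((2 : ℝ) ^ n) ^ 1 := (pow_one _).symm
        _ ≤ ((2 : ℝ) ^ n) ^ M0 := pow_le_pow_right₀ h2 hM0
    have h2n : (0 : ℝ) < 2 ^ n := by positivity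
    have hDpos : 0 < D n := h2n.trans_le hD1
    have hineq := hx n (L n)
    rw [evalAt_FF] at hineq
    unfold GG at hineq
    rw [hsiz, hlen] at hineq
    -- the sum in `GG` is at most `2 * 2^n * k`
    have hround : ∀ c ∈ l0, (D n * x (classOfCode c) - (num n c : ℝ)) ^ 2 ≤ 1 := by
      intro c _
      have h1 : 0 ≤ D n * x (classOfCode c) := mul_nonneg hDpos.le (x (classOfCode c)).2.1
      have h2 := Nat.floor_le h1
      have h3 := Nat.lt_floor_add_one (D n * (x (classOfCode c) : ℝ))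
      have h4 : 0 ≤ D n * x (classOfCode c) - (num n c : ℝ) := by
        simp only [num]; linarith
      have h5 : D n * x (classOfCode c) - (num n c : ℝ) ≤ 1 := by
        simp only [num]; linarith
      nlinarith
    have hsum1 : ((L n).map (fun p => 2 * 2 ^ n * (((2 : ℝ) ^ n) ^ M0 *
        (x (classOfCode p.1) : ℝ) - p.2) ^ 2)).sum ≤ 2 * 2 ^ n * k := by
      simp only [L, List.map_map, Function.comp_def]
      have hb : ∀ y ∈ l0.map (fun c => 2 * 2 ^ n * (((2 : ℝ) ^ n) ^ M0 *
          (x (classOfCode c) : ℝ) - (num n c : ℝ)) ^ 2), y ≤ 2 * 2 ^ n := by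
        intro y hy
        obtain ⟨c, hc, rfl⟩ := List.mem_map.mp hy
        have := hround c hc
        have h2n' : (0 : ℝ) < 2 * 2 ^ n := by positivity
        calc 2 * 2 ^ n * (((2 : ℝ) ^ n) ^ M0 * (x (classOfCode c) : ℝ) - (num n c : ℝ)) ^ 2
            ≤ 2 * 2 ^ n * 1 := mul_le_mul_of_nonneg_left this h2n'.le
          _ = 2 * 2 ^ n := mul_one _
      have := List.sum_le_card_nsmul _ _ hb
      rw [List.length_map, nsmul_eq_mul] at this
      calc _ ≤ (l0.length : ℝ) * (2 * 2 ^ n) := this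
        _ = 2 * 2 ^ n * k := by rw [hk]; ring
    -- the minimum is attained at some set
    obtain ⟨a, ha, haR⟩ := exists_minTo (dst n (L n)) (2 ^ 2 ^ n)
    have hmn : (mn n (L n) : ℝ) = (dst n (L n) a : ℝ) := by
      unfold mn; rw [haR]
    obtain ⟨c, hc, hcδ⟩ := hfar n hn (setOf n a)
    have hcM : (codeModel c).1 + 1 ≤ M0 := by
      change c.unpair.1 + 1 ≤ M0
      simp only [M0]
      exact List.single_le_sum (by simp) _ (List.mem_map_of_mem hc)
    -- one term of the distance is large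
    have hterm : (D n) ^ 2 * (δ / 2) ^ 2 ≤ ((cnt n M0 c a : ℝ) - (num n c : ℝ)) ^ 2 := by
      rw [cnt_eq_avg n M0 c a hcM]
      change _ ≤ (D n * avg (codeModel c).2 (setOf n a) - (num n c : ℝ)) ^ 2
      have h1 := density_sub_avg (codeModel c) (setOf n a)
        ((hcM.trans hnM).trans (Nat.lt_two_pow_self).le)
      have h2 : (densityPoint (linModel (setOf n a)) (classOfCode c) : ℝ) =
          density (codeModel c) (linModel (setOf n a)) := rfl
      rw [h2] at hcδ
      have h3 : (((codeModel c).1 : ℝ) + 1) ^ 2 / 2 ^ n ≤ (M0 : ℝ) ^ 2 / 2 ^ n := by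
        apply div_le_div_of_nonneg_right _ h2n.le
        apply pow_le_pow_left₀ (by positivity)
        exact_mod_cast hcM
      have h4 : |D n * x (classOfCode c) - (num n c : ℝ)| ≤ 1 := by
        exact (sq_le_one_iff_abs_le_one _).mp (hround c hc)
      have h5 : δ - (M0 : ℝ) ^ 2 / 2 ^ n ≤
          |avg (codeModel c).2 (setOf n a) - x (classOfCode c)| := by
        have htri : |density (codeModel c) (linModel (setOf n a)) - x (classOfCode c)| ≤
            |density (codeModel c) (linModel (setOf n a)) - avg (codeModel c).2 (setOf n a)| +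
            |avg (codeModel c).2 (setOf n a) - x (classOfCode c)| := abs_sub_le _ _ _
        linarith
      have h6 : D n * (δ - (M0 : ℝ) ^ 2 / 2 ^ n) - 1 ≤
          |D n * avg (codeModel c).2 (setOf n a) - (num n c : ℝ)| := by
        have htri : |D n * avg (codeModel c).2 (setOf n a) - D n * x (classOfCode c)| ≤
            |D n * avg (codeModel c).2 (setOf n a) - (num n c : ℝ)| +
            |(num n c : ℝ) - D n * x (classOfCode c)| := abs_sub_le _ _ _
        rw [abs_sub_comm (num n c : ℝ)] at htri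
        rw [← mul_sub, abs_mul, abs_of_pos hDpos] at htri
        have := mul_le_mul_of_nonneg_left h5 hDpos.le
        linarith
      have h7 : D n * (δ / 2) ≤ D n * (δ - (M0 : ℝ) ^ 2 / 2 ^ n) - 1 := by
        have h8 : 1 ≤ D n * (1 / 2 ^ n) := by
          rw [mul_one_div, le_div_iff₀ h2n]
          linarith
        have h9 : D n * ((M0 : ℝ) ^ 2 / 2 ^ n + 1 / 2 ^ n) ≤ D n * (δ / 2) :=
          mul_le_mul_of_nonneg_left hsmall hDpos.le
        nlinarith
      have h10 : 0 ≤ D n * (δ / 2) := by positivity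
      calc (D n) ^ 2 * (δ / 2) ^ 2 = (D n * (δ / 2)) ^ 2 := by ring
        _ ≤ |D n * avg (codeModel c).2 (setOf n a) - (num n c : ℝ)| ^ 2 :=
          pow_le_pow_left₀ h10 (h7.trans h6) 2
        _ = _ := sq_abs _
    have hdst : (D n) ^ 2 * (δ / 2) ^ 2 ≤ (mn n (L n) : ℝ) := by
      rw [hmn, dst_cast, hsiz]
      simp only [L, List.map_map, Function.comp_def]
      refine hterm.trans ?_
      refine List.single_le_sum ?_ _ (List.mem_map_of_mem (f := fun c =>
        ((cnt n M0 c a : ℝ) - (num n c : ℝ)) ^ 2) hc)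
      intro y hy
      obtain ⟨c', _, rfl⟩ := List.mem_map.mp hy
      positivity
    have hfin := mul_le_mul_of_nonneg_left hdst h2n.le
    have hDD : (((2 : ℝ) ^ n) ^ M0) = D n := rfl
    rw [hDD] at hineq
    linarith
  -- the contradiction for `n` large
  have hlim1 : Tendsto (fun n : ℕ => (M0 : ℝ) ^ 2 / 2 ^ n + 1 / 2 ^ n) atTop (𝓝 (0 + 0)) :=
    (tendsto_const_div_two_pow _ tendsto_id).add (tendsto_const_div_two_pow _ tendsto_id)
  have hlim2 : Tendsto (fun n : ℕ => (2 * k * 4 ^ M0) / 2 ^ n + (2 * k) / 2 ^ n) atTop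
      (𝓝 (0 + 0)) :=
    (tendsto_const_div_two_pow _ tendsto_id).add (tendsto_const_div_two_pow _ tendsto_id)
  rw [add_zero] at hlim1 hlim2
  have hev1 := hlim1.eventually (eventually_le_nhds (show (0 : ℝ) < δ / 2 by positivity))
  have hev2 := hlim2.eventually (eventually_lt_nhds (show (0 : ℝ) < (δ / 2) ^ 2 by positivity))
  obtain ⟨n, h1, h2, h3, h4⟩ := ((hev1.and (hev2.and ((eventually_ge_atTop N0).and
    (eventually_ge_atTop M0)))).exists)
  have hn := hkey n h3 h4 h1
  have h2n : (0 : ℝ) < 2 ^ n := by positivity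
  have hD1 : (1 : ℝ) ≤ D n := by
    simp only [D]
    exact one_le_pow₀ (one_le_pow₀ (by norm_num))
  have hk0 : 0 ≤ k := by rw [hk]; positivity
  have h2n1 : (1 : ℝ) ≤ 2 ^ n := one_le_pow₀ (by norm_num)
  -- multiply out
  have h5 : 2 ^ n * ((D n) ^ 2 * ((2 * k * 4 ^ M0) / 2 ^ n + (2 * k) / 2 ^ n)) =
      2 * k * 4 ^ M0 * (D n) ^ 2 + 2 * k * (D n) ^ 2 := by
    field_simp
  have hD2n : (2 : ℝ) ^ n ≤ D n := by
    simp only [D]
    calc (2 : ℝ) ^ n = ((2 : ℝ) ^ n) ^ 1 := (pow_one _).symm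
      _ ≤ ((2 : ℝ) ^ n) ^ M0 := pow_le_pow_right₀ h2n1 hM0
  have h6 : 2 * 2 ^ n * k ≤ 2 * k * (D n) ^ 2 := by
    have : (2 : ℝ) ^ n ≤ (D n) ^ 2 := by nlinarith
    nlinarith
  have h7 : 2 ^ n * ((D n) ^ 2 * ((2 * k * 4 ^ M0) / 2 ^ n + (2 * k) / 2 ^ n)) <
      2 ^ n * ((D n) ^ 2 * (δ / 2) ^ 2) := by
    apply mul_lt_mul_of_pos_left _ h2n
    apply mul_lt_mul_of_pos_left h2
    positivity
  linarith

/-- **Main theorem.** -/
theorem main : HasExplicitDescription {x | IsLineon x} := by
  refine ⟨Set.range (fun k => polyOfCode (FN k)), ⟨FN, computable_FN, rfl⟩, ?_⟩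
  ext x
  simp only [Set.mem_ofPred_eq, Set.forall_mem_range]
  constructor
  · intro hx k
    unfold FN
    cases (Encodable.decode k : Option (ℕ × List (ℕ × ℕ))) with
    | none =>
      rw [evalAt_polyOfCode]
      simp
    | some q => exact sound x hx q.1 q.2
  · intro h
    apply complete
    intro n l
    have := h (Encodable.encode (n, l))
    unfold FN at this
    rw [Encodable.encodek] at this
    exact this

end Pool.Agent.H778R3.Lin
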